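import Pool.Agent.H131DG.Rep

/-! The product block: a large grid times a small disc. -/

open Finset

namespace Pool.Agent.H131DG

/-- ordered pairs of `S` with difference of norm `t` -/
def F (S : Finset (ℤ × ℤ)) (t : ℤ) : ℕ := ((S ×ˢ S).filter fun q => nn (q.1 - q.2) = t).card

/-- points of `S` whose translate by `v` is in `S` -/
def N (S : Finset (ℤ × ℤ)) (v : ℤ × ℤ) : ℕ := (S.filter fun z => z + v ∈ S).card

theorem F_ge (S V : Finset (ℤ × ℤ)) (t : ℤ) (hV : ∀ v ∈ V, nn v = t) :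
    ∑ v ∈ V, N S v ≤ F S t := by
  unfold N F
  rw [← Finset.card_sigma]
  apply Finset.card_le_card_of_injOn (fun s => (s.2 + s.1, s.2))
  · rintro ⟨v, z⟩ hs
    obtain ⟨h1, h2⟩ := Finset.mem_sigma.1 (Finset.mem_coe.1 hs)
    obtain ⟨h3, h4⟩ := Finset.mem_filter.1 h2
    refine Finset.mem_coe.2 (Finset.mem_filter.2 ⟨Finset.mem_product.2 ⟨h4, h3⟩, ?_⟩)
    show nn (z + v - z) = t
    rw [add_sub_cancel_left]
    exact hV v h1
  · rintro ⟨v, z⟩ _ ⟨v', z'⟩ _ h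
    simp only [Prod.mk.injEq] at h
    obtain ⟨h1, h2⟩ := h
    subst h2
    have := add_left_cancel h1
    subst this
    rfl

theorem F_le (S V : Finset (ℤ × ℤ)) (t : ℤ)
    (hV : ∀ z ∈ S, ∀ z' ∈ S, nn (z - z') = t → z - z' ∈ V) :
    F S t ≤ ∑ v ∈ V, N S v := by
  unfold F
  rw [Finset.card_eq_sum_card_fiberwise (f := fun q : (ℤ × ℤ) × (ℤ × ℤ) => q.1 - q.2) (t := V)]
  · apply Finset.sum_le_sum
    intro v _
    unfold N
    apply Finset.card_le_card_of_injOn (fun q => q.2)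
    · intro q hq
      obtain ⟨h1, h2⟩ := Finset.mem_filter.1 (Finset.mem_coe.1 hq)
      obtain ⟨h3, h4⟩ := Finset.mem_filter.1 h1
      obtain ⟨h5, h6⟩ := Finset.mem_product.1 h3
      refine Finset.mem_coe.2 (Finset.mem_filter.2 ⟨h6, ?_⟩)
      rw [← h2, add_sub_cancel]
      exact h5
    · intro q hq q' hq' h
      obtain ⟨_, h2⟩ := Finset.mem_filter.1 (Finset.mem_coe.1 hq)
      obtain ⟨_, h4⟩ := Finset.mem_filter.1 (Finset.mem_coe.1 hq')
      have h : q.2 = q'.2 := h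
      have h5 : q.1 - q.2 = q'.1 - q'.2 := by rw [h2, h4]
      rw [h] at h5
      exact Prod.ext (sub_left_injective h5) h
  · intro q hq
    obtain ⟨h1, h2⟩ := Finset.mem_filter.1 (Finset.mem_coe.1 hq)
    obtain ⟨h3, h4⟩ := Finset.mem_product.1 h1
    exact Finset.mem_coe.2 (hV _ h3 _ h4 h2)

theorem N_lt (S : Finset (ℤ × ℤ)) (hS : S.Nonempty) (v : ℤ × ℤ) (hv : v ≠ 0) :
    N S v + 1 ≤ S.card := by
  unfold N
  apply Finset.card_lt_card
  rw [Finset.filter_ssubset]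
  obtain ⟨z, hz, hmax⟩ := Finset.exists_max_image S (fun z => z.1 * v.1 + z.2 * v.2) hS
  refine ⟨z, hz, fun h => ?_⟩
  have h1 := hmax _ h
  have h2 := nn_pos v hv
  unfold nn at h2
  simp only [Prod.fst_add, Prod.snd_add] at h1
  nlinarith

/-- the box -/
noncomputable def box (R : ℕ) : Finset (ℤ × ℤ) := Finset.Ico (0 : ℤ) R ×ˢ Finset.Ico (0 : ℤ) R

theorem card_box (R : ℕ) : (box R).card = R ^ 2 := by
  unfold box
  rw [Finset.card_product, Int.card_Ico]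
  simp [sq]

theorem N_box (R ρ : ℕ) (hρ : ρ ≤ R) (v : ℤ × ℤ) (h1 : |v.1| ≤ ρ) (h2 : |v.2| ≤ ρ) :
    (R - ρ) ^ 2 ≤ N (box R) v := by
  have e1 : ∀ s : ℤ, (Finset.Ico s (s + (R - ρ : ℕ))).card = R - ρ := by
    intro s
    rw [Int.card_Ico]
    simp
  have e2 : (R - ρ) ^ 2 = (Finset.Ico (max 0 (-v.1)) (max 0 (-v.1) + (R - ρ : ℕ)) ×ˢ
      Finset.Ico (max 0 (-v.2)) (max 0 (-v.2) + (R - ρ : ℕ))).card := by
    rw [Finset.card_product, e1, e1, sq]
  rw [e2]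
  unfold N box
  apply Finset.card_le_card
  intro z hz
  obtain ⟨g1, g2⟩ := Finset.mem_product.1 hz
  rw [Finset.mem_Ico] at g1 g2
  rw [abs_le] at h1 h2
  push_cast [Nat.cast_sub hρ] at g1 g2
  rw [Finset.mem_filter, Finset.mem_product, Finset.mem_product, Finset.mem_Ico, Finset.mem_Ico,
    Finset.mem_Ico, Finset.mem_Ico]
  simp only [Prod.fst_add, Prod.snd_add]
  omega

theorem F_compare (R ρ : ℕ) (B : Finset (ℤ × ℤ)) (hB : B.Nonempty)
    (hBρ : ∀ z ∈ B, ∀ z' ∈ B, |(z - z').1| ≤ ρ ∧ |(z - z').2| ≤ ρ) (hR : 2 * B.card * ρ ≤ R)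
    (t : ℤ) (ht : 0 < t) : (box R).card * F B t ≤ B.card * F (box R) t := by
  classical
  have hb1 : 1 ≤ B.card := Finset.card_pos.2 hB
  have hρR : ρ ≤ R := by nlinarith
  set V := ((B ×ˢ B).image fun q => q.1 - q.2).filter (fun v => nn v = t) with hV
  have h1 : F B t ≤ ∑ v ∈ V, N B v := by
    apply F_le
    intro z hz z' hz' h
    exact Finset.mem_filter.2 ⟨Finset.mem_image.2 ⟨(z, z'), Finset.mem_product.2 ⟨hz, hz'⟩, rfl⟩, h⟩
  have h2 : ∑ v ∈ V, N (box R) v ≤ F (box R) t :=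
    F_ge _ _ _ fun v hv => (Finset.mem_filter.1 hv).2
  refine (Nat.mul_le_mul_left _ h1).trans (le_trans ?_ (Nat.mul_le_mul_left _ h2))
  rw [Finset.mul_sum, Finset.mul_sum]
  apply Finset.sum_le_sum
  intro v hv
  obtain ⟨g1, g2⟩ := Finset.mem_filter.1 hv
  obtain ⟨q, hq, rfl⟩ := Finset.mem_image.1 g1
  obtain ⟨g3, g4⟩ := Finset.mem_product.1 hq
  obtain ⟨g5, g6⟩ := hBρ _ g3 _ g4
  have g7 : q.1 - q.2 ≠ 0 := by
    intro h
    rw [h] at g2
    unfold nn at g2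
    simp at g2
    omega
  have g8 := N_lt B hB _ g7
  have g9 := N_box R ρ hρR _ g5 g6
  rw [card_box]
  refine le_trans ?_ (Nat.mul_le_mul_left _ g9)
  obtain ⟨r, hr⟩ := Nat.exists_eq_add_of_le hρR
  have g10 : R - ρ = r := by omega
  rw [g10]
  have g11 : R ^ 2 * N B (q.1 - q.2) + R ^ 2 ≤ R ^ 2 * B.card := by nlinarith [Nat.zero_le (R ^ 2)]
  have g12 : R ^ 2 * B.card ≤ B.card * r ^ 2 + R ^ 2 := by
    have : R * (2 * B.card * ρ) ≤ R * R := Nat.mul_le_mul_left _ hR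
    subst hr
    nlinarith [Nat.zero_le (B.card * ρ ^ 2)]
  omega

/-- scaled embedding -/
noncomputable def io (m : ℕ) (z : ℤ × ℤ) : ℂ := ⟨z.1 / Real.sqrt m, z.2 / Real.sqrt m⟩

theorem dist_io (m : ℕ) (hm : 0 < m) (z z' : ℤ × ℤ) :
    dist (io m z) (io m z') ^ 2 = (nn (z - z') : ℝ) / m := by
  have h1 : (0 : ℝ) < m := by exact_mod_cast hm
  rw [dist_eq_norm, ← Complex.normSq_eq_norm_sq, Complex.normSq_apply]
  unfold io nn
  simp only [Complex.sub_re, Complex.sub_im, Prod.fst_sub, Prod.snd_sub]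
  push_cast
  rw [div_sub_div_same, div_sub_div_same, div_mul_div_comm, div_mul_div_comm,
    Real.mul_self_sqrt h1.le]
  ring

theorem dist_io_iff (m : ℕ) (hm : 0 < m) (z z' : ℤ × ℤ) (d : ℝ) (hd : 0 < d) :
    dist (io m z) (io m z') = d ↔ (nn (z - z') : ℝ) = d ^ 2 * m := by
  have h1 : (0 : ℝ) < m := by exact_mod_cast hm
  rw [← div_eq_iff h1.ne', ← dist_io m hm]
  constructor
  · intro h; rw [h]
  · intro h
    exact (pow_left_inj₀ dist_nonneg hd.le two_ne_zero).1 h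

theorem io_inj (m : ℕ) (hm : 0 < m) : Function.Injective (io m) := by
  intro z z' h
  have h1 := dist_io m hm z z'
  have h2 : (0 : ℝ) < m := by exact_mod_cast hm
  rw [h, dist_self] at h1
  have h3 : (nn (z - z') : ℝ) = 0 := by
    rw [eq_div_iff h2.ne'] at h1
    linarith
  have h4 : nn (z - z') = 0 := by exact_mod_cast h3
  by_contra hne
  exact (nn_pos _ (sub_ne_zero.2 hne)).ne' h4

open Classical in
/-- scaled set -/
noncomputable def sc (m : ℕ) (S : Finset (ℤ × ℤ)) : Finset ℂ := S.image (io m)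

theorem card_sc (m : ℕ) (hm : 0 < m) (S : Finset (ℤ × ℤ)) : (sc m S).card = S.card :=
  Finset.card_image_of_injective _ (io_inj m hm)

theorem oc_sc (m : ℕ) (hm : 0 < m) (S : Finset (ℤ × ℤ)) (d : ℝ) (hd : 0 < d) :
    oc (sc m S) d = ((S ×ˢ S).filter fun q => (nn (q.1 - q.2) : ℝ) = d ^ 2 * m).card := by
  classical
  unfold oc
  symm
  apply Finset.card_bij (fun q _ => (io m q.1, io m q.2))
  · intro q hq
    obtain ⟨h1, h2⟩ := Finset.mem_filter.1 hq
    obtain ⟨h3, h4⟩ := Finset.mem_product.1 h1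
    exact Finset.mem_filter.2 ⟨Finset.mem_product.2 ⟨Finset.mem_image_of_mem _ h3,
      Finset.mem_image_of_mem _ h4⟩, (dist_io_iff m hm _ _ d hd).2 h2⟩
  · intro q _ q' _ h
    simp only [Prod.mk.injEq] at h
    exact Prod.ext (io_inj m hm h.1) (io_inj m hm h.2)
  · rintro ⟨u, v⟩ huv
    obtain ⟨h1, h2⟩ := Finset.mem_filter.1 huv
    obtain ⟨h3, h4⟩ := Finset.mem_product.1 h1
    obtain ⟨y, hy, rfl⟩ := Finset.mem_image.1 h3
    obtain ⟨y', hy', rfl⟩ := Finset.mem_image.1 h4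
    exact ⟨(y, y'), Finset.mem_filter.2 ⟨Finset.mem_product.2 ⟨hy, hy'⟩,
      (dist_io_iff m hm _ _ d hd).1 h2⟩, rfl⟩

theorem oc_sc_le (m : ℕ) (hm : 0 < m) (S : Finset (ℤ × ℤ)) (c M : ℕ)
    (hM : ∀ t : ℤ, 0 < t → c * F S t ≤ M) (d : ℝ) (hd : 0 < d) : c * oc (sc m S) d ≤ M := by
  have h2 : (0 : ℝ) < m := by exact_mod_cast hm
  rw [oc_sc m hm S d hd]
  rcases Finset.eq_empty_or_nonempty
    ((S ×ˢ S).filter fun q => (nn (q.1 - q.2) : ℝ) = d ^ 2 * m) with h | ⟨q, hq⟩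
  · rw [h]; simp
  · have h3 := (Finset.mem_filter.1 hq).2
    have h4 : (0 : ℝ) < (nn (q.1 - q.2) : ℝ) := by rw [h3]; positivity
    have h5 : 0 < nn (q.1 - q.2) := by exact_mod_cast h4
    refine le_trans (Nat.mul_le_mul_left _ (Finset.card_le_card ?_)) (hM _ h5)
    intro q' hq'
    obtain ⟨h6, h7⟩ := Finset.mem_filter.1 hq'
    refine Finset.mem_filter.2 ⟨h6, ?_⟩
    rw [← h3] at h7
    exact_mod_cast h7

theorem oc_sc_one (m : ℕ) (hm : 0 < m) (S : Finset (ℤ × ℤ)) : oc (sc m S) 1 = F S m := by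
  rw [oc_sc m hm S 1 one_pos]
  unfold F
  congr 1
  apply Finset.filter_congr
  intro q _
  rw [one_pow, one_mul]
  constructor
  · intro h; exact_mod_cast h
  · intro h; rw [h]; simp

/-- the disc -/
noncomputable def disc (m h : ℕ) : Finset (ℤ × ℤ) :=
  (Finset.Icc (-(6 * h : ℤ)) (6 * h) ×ˢ Finset.Icc (-(6 * h : ℤ)) (6 * h)).filter
    fun z => 2 * nn z < m

theorem card_disc (m h : ℕ) : (disc m h).card ≤ (12 * h + 1) ^ 2 := by
  unfold disc
  refine (Finset.card_filter_le _ _).trans ?_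
  rw [Finset.card_product, Int.card_Icc]
  have : (6 * (h : ℤ) + 1 - -(6 * (h : ℤ))).toNat = 12 * h + 1 := by omega
  rw [this, sq]

theorem N_disc (m h : ℕ) (h1 : 1 ≤ h) (h2 : 16 * h ^ 2 ≤ m) (h3 : m < 16 * (h + 1) ^ 2)
    (v : ℤ × ℤ) (hv : nn v = m) : h ^ 2 ≤ N (disc m h) v := by
  have e1 : ∀ s : ℤ, (Finset.Ico s (s + (h : ℤ))).card = h := by
    intro s
    rw [Int.card_Ico]
    simp
  have e2 : h ^ 2 = (Finset.Ico (-((v.1 + h) / 2)) (-((v.1 + h) / 2) + (h : ℤ)) ×ˢ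
      Finset.Ico (-((v.2 + h) / 2)) (-((v.2 + h) / 2) + (h : ℤ))).card := by
    rw [Finset.card_product, e1, e1, sq]
  have hm1 : 16 * (h : ℤ) ^ 2 ≤ m := by exact_mod_cast h2
  have hm2 : (m : ℤ) < 16 * ((h : ℤ) + 1) ^ 2 := by exact_mod_cast h3
  have hh1 : (1 : ℤ) ≤ h := by exact_mod_cast h1
  have hm0 : (0 : ℤ) < m := by nlinarith
  have hvv : v.1 ^ 2 + v.2 ^ 2 = (m : ℤ) := hv
  -- membership criterion
  have key : ∀ z : ℤ × ℤ, ∀ s t p q : ℤ, 2 * z.1 = s - p → 2 * z.2 = t - q → |s| ≤ h → |t| ≤ h →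
      p ^ 2 + q ^ 2 = m → z ∈ disc m h := by
    intro z s t p q hz1 hz2 hs ht hpq
    have hs2 : s ^ 2 ≤ (h : ℤ) ^ 2 := sq_le_sq.2 (by rw [abs_of_nonneg (by omega : (0 : ℤ) ≤ h)]; exact hs)
    have ht2 : t ^ 2 ≤ (h : ℤ) ^ 2 := sq_le_sq.2 (by rw [abs_of_nonneg (by omega : (0 : ℤ) ≤ h)]; exact ht)
    have h4 : 4 * nn z = (s - p) ^ 2 + (t - q) ^ 2 := by
      unfold nn
      rw [← hz1, ← hz2]
      ring
    have h5 : 2 * nn z < m := by
      have k1 : 0 ≤ 9 * s ^ 2 + 6 * s * p + p ^ 2 := by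
        have := sq_nonneg (3 * s + p)
        linarith [this, (by ring : (3 * s + p) ^ 2 = 9 * s ^ 2 + 6 * s * p + p ^ 2)]
      have k2 : 0 ≤ 9 * t ^ 2 + 6 * t * q + q ^ 2 := by
        have := sq_nonneg (3 * t + q)
        linarith [this, (by ring : (3 * t + q) ^ 2 = 9 * t ^ 2 + 6 * t * q + q ^ 2)]
      have k3 : (s - p) ^ 2 = s ^ 2 - 2 * (s * p) + p ^ 2 := by ring
      have k4 : (t - q) ^ 2 = t ^ 2 - 2 * (t * q) + q ^ 2 := by ring
      rw [k3, k4] at h4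
      have k5 : 6 * s * p = 6 * (s * p) := by ring
      have k6 : 6 * t * q = 6 * (t * q) := by ring
      rw [k5] at k1
      rw [k6] at k2
      linarith
    unfold nn at h5
    have hhm : (m : ℤ) ≤ 64 * (h : ℤ) ^ 2 := by
      have : ((h : ℤ) + 1) ^ 2 ≤ 4 * (h : ℤ) ^ 2 := by nlinarith
      linarith
    have hz1s := sq_nonneg z.1
    have hz2s := sq_nonneg z.2
    have hhs := sq_nonneg (h : ℤ)
    have h6 : z.1 ^ 2 ≤ (6 * (h : ℤ)) ^ 2 := by rw [mul_pow]; linarith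
    have h7 : z.2 ^ 2 ≤ (6 * (h : ℤ)) ^ 2 := by rw [mul_pow]; linarith
    have h8 := abs_le.1 (abs_le_of_sq_le_sq h6 (by omega))
    have h9 := abs_le.1 (abs_le_of_sq_le_sq h7 (by omega))
    exact Finset.mem_filter.2 ⟨Finset.mem_product.2 ⟨Finset.mem_Icc.2 h8, Finset.mem_Icc.2 h9⟩, h5⟩
  rw [e2]
  unfold N
  apply Finset.card_le_card
  intro z hz
  obtain ⟨g1, g2⟩ := Finset.mem_product.1 hz
  rw [Finset.mem_Ico] at g1 g2
  have g3 : |2 * z.1 + v.1| ≤ h := by rw [abs_le]; omega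
  have g4 : |2 * z.2 + v.2| ≤ h := by rw [abs_le]; omega
  refine Finset.mem_filter.2 ⟨?_, ?_⟩
  · exact key z (2 * z.1 + v.1) (2 * z.2 + v.2) v.1 v.2 (by ring) (by ring) g3 g4 hvv
  · refine key (z + v) (2 * z.1 + v.1) (2 * z.2 + v.2) (-v.1) (-v.2) ?_ ?_ g3 g4 ?_
    · rw [Prod.fst_add]; ring
    · rw [Prod.snd_add]; ring
    · rw [← hvv]; ring

theorem block (R : ℕ) (hR : 4 ≤ R) : ∃ ms : ℕ, 0 < ms ∧ ms ≤ 2 * R ^ 2 ∧
    ∀ (T : Finset ℕ) (h : ℕ), (∀ q ∈ T, q.Prime ∧ q % 4 = 1) → (∏ q ∈ T, q).Coprime ms →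
      1 ≤ h → 16 * h ^ 2 ≤ ∏ q ∈ T, q → ∏ q ∈ T, q < 16 * (h + 1) ^ 2 →
      24 * h * (12 * h + 1) ^ 2 ≤ R →
      ∃ X : Finset ℂ, ∃ M G : ℕ, 0 < X.card ∧ X.card ≤ R ^ 2 * (12 * h + 1) ^ 2 ∧ 2 * X.card ≤ M ∧
        (∀ d > 0, d ≠ 1 → oc X d ≤ M) ∧ M + G ≤ oc X 1 ∧ X.card * 2 ^ T.card ≤ 169 * G := by
  classical
  set A := box R with hA
  set vals := (((A ×ˢ A).filter fun q => q.1 ≠ q.2).image fun q => nn (q.1 - q.2)) with hvals
  have hR0 : (4 : ℤ) ≤ R := by exact_mod_cast hR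
  have hne : vals.Nonempty := by
    refine ⟨nn ((1, 0) - (0, 0)), Finset.mem_image.2 ⟨((1, 0), (0, 0)), ?_, rfl⟩⟩
    refine Finset.mem_filter.2 ⟨Finset.mem_product.2 ⟨?_, ?_⟩, ?_⟩
    · exact Finset.mem_product.2 ⟨Finset.mem_Ico.2 ⟨zero_le_one, (by omega : (1 : ℤ) < R)⟩,
        Finset.mem_Ico.2 ⟨le_refl _, (by omega : (0 : ℤ) < R)⟩⟩
    · exact Finset.mem_product.2 ⟨Finset.mem_Ico.2 ⟨le_refl _, (by omega : (0 : ℤ) < R)⟩,
        Finset.mem_Ico.2 ⟨le_refl _, (by omega : (0 : ℤ) < R)⟩⟩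
    · intro h
      exact one_ne_zero (congrArg Prod.fst h)
  obtain ⟨msz, hms, hmax⟩ := Finset.exists_max_image vals (fun t => F A t) hne
  obtain ⟨q0, hq0, hq0'⟩ := Finset.mem_image.1 hms
  obtain ⟨hq1, hq2⟩ := Finset.mem_filter.1 hq0
  obtain ⟨hq3, hq4⟩ := Finset.mem_product.1 hq1
  obtain ⟨hq5, hq6⟩ := Finset.mem_product.1 hq3
  obtain ⟨hq7, hq8⟩ := Finset.mem_product.1 hq4
  rw [Finset.mem_Ico] at hq5 hq6 hq7 hq8
  have hmspos : 0 < msz := by rw [← hq0']; exact nn_pos _ (sub_ne_zero.2 hq2)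
  obtain ⟨ms, rfl⟩ : ∃ ms : ℕ, msz = (ms : ℤ) := ⟨msz.toNat, by omega⟩
  have hms0 : 0 < ms := by exact_mod_cast hmspos
  have hmsle : ms ≤ 2 * R ^ 2 := by
    have h1 : (ms : ℤ) ≤ 2 * R ^ 2 := by
      rw [← hq0']
      unfold nn
      rw [Prod.fst_sub, Prod.snd_sub]
      have e1 : (q0.1.1 - q0.2.1) ^ 2 ≤ (R : ℤ) ^ 2 := by
        apply sq_le_sq.2
        rw [abs_of_nonneg (by omega : (0 : ℤ) ≤ R), abs_le]
        omega
      have e2 : (q0.1.2 - q0.2.2) ^ 2 ≤ (R : ℤ) ^ 2 := by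
        apply sq_le_sq.2
        rw [abs_of_nonneg (by omega : (0 : ℤ) ≤ R), abs_le]
        omega
      linarith
    exact_mod_cast h1
  have hmaxall : ∀ t : ℤ, 0 < t → F A t ≤ F A ms := by
    intro t ht
    by_cases htv : t ∈ vals
    · exact hmax t htv
    · have : F A t = 0 := by
        unfold F
        rw [Finset.card_eq_zero, Finset.filter_eq_empty_iff]
        intro q hq hqt
        apply htv
        refine Finset.mem_image.2 ⟨q, Finset.mem_filter.2 ⟨hq, ?_⟩, hqt⟩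
        intro h
        rw [h, sub_self] at hqt
        unfold nn at hqt
        simp at hqt
        omega
      omega
  have hA1 : 2 * A.card ≤ F A ms := by
    refine le_trans ?_ (hmaxall 1 one_pos)
    have h1 := F_ge A {(1, 0), (-1, 0), (0, 1), (0, -1)} 1 (by
      intro v hv
      simp only [Finset.mem_insert, Finset.mem_singleton] at hv
      rcases hv with rfl | rfl | rfl | rfl <;> rfl)
    refine le_trans ?_ h1
    have h2 : ∀ v ∈ ({(1, 0), (-1, 0), (0, 1), (0, -1)} : Finset (ℤ × ℤ)), (R - 1) ^ 2 ≤ N A v := by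
      intro v hv
      simp only [Finset.mem_insert, Finset.mem_singleton] at hv
      rcases hv with rfl | rfl | rfl | rfl <;>
        exact N_box R 1 (by omega) _ (by norm_num) (by norm_num)
    have h3 := Finset.card_nsmul_le_sum _ _ _ h2
    refine le_trans ?_ h3
    have h4 : ({(1, 0), (-1, 0), (0, 1), (0, -1)} : Finset (ℤ × ℤ)).card = 4 := by decide
    rw [h4, hA, card_box, smul_eq_mul]
    obtain ⟨r, rfl⟩ : ∃ r, R = r + 4 := ⟨R - 4, by omega⟩
    have : r + 4 - 1 = r + 3 := by omega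
    rw [this]
    nlinarith
  refine ⟨ms, hms0, hmsle, ?_⟩
  intro T h hT hcop h1 h2 h3 h4
  set m : ℕ := ∏ q ∈ T, q with hm
  have hm0 : 0 < m := by nlinarith
  set B := disc m h with hB
  have hB0 : B.Nonempty := by
    refine ⟨(0, 0), Finset.mem_filter.2 ⟨Finset.mem_product.2 ⟨?_, ?_⟩, ?_⟩⟩
    · exact Finset.mem_Icc.2 ⟨by simp, by positivity⟩
    · exact Finset.mem_Icc.2 ⟨by simp, by positivity⟩
    · unfold nn; simpa using hm0
  have hB1 : 1 ≤ B.card := Finset.card_pos.2 hB0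
  have hBc : B.card ≤ (12 * h + 1) ^ 2 := card_disc m h
  have hBρ : ∀ z ∈ B, ∀ z' ∈ B, |(z - z').1| ≤ ((12 * h : ℕ) : ℤ) ∧ |(z - z').2| ≤ ((12 * h : ℕ) : ℤ) := by
    intro z hz z' hz'
    obtain ⟨g1, _⟩ := Finset.mem_filter.1 hz
    obtain ⟨g2, _⟩ := Finset.mem_filter.1 hz'
    obtain ⟨g3, g4⟩ := Finset.mem_product.1 g1
    obtain ⟨g5, g6⟩ := Finset.mem_product.1 g2
    rw [Finset.mem_Icc] at g3 g4 g5 g6
    rw [abs_le, abs_le, Prod.fst_sub, Prod.snd_sub]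
    push_cast
    omega
  have hcomp : ∀ t : ℤ, 0 < t → A.card * F B t ≤ B.card * F A t := by
    intro t ht
    refine F_compare R (12 * h) B hB0 hBρ ?_ t ht
    calc 2 * B.card * (12 * h) = 24 * h * B.card := by ring
      _ ≤ 24 * h * (12 * h + 1) ^ 2 := Nat.mul_le_mul_left _ hBc
      _ ≤ R := h4
  have hd : ∀ z z' : ℤ × ℤ, z ∈ B → z' ∈ B → nn (z - z') < 2 * m := by
    intro z z' hz hz'
    have g1 := (Finset.mem_filter.1 hz).2
    have g2 := (Finset.mem_filter.1 hz').2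
    unfold nn at g1 g2 ⊢
    rw [Prod.fst_sub, Prod.snd_sub]
    nlinarith [sq_nonneg (z.1 + z'.1), sq_nonneg (z.2 + z'.2)]
  obtain ⟨X, hX1, hX2, hX3⟩ := prod_lemma (sc ms A) (sc m B) (F A ms * B.card) (by
      intro a ha a' ha' b hb b' hb' hne hdd
      obtain ⟨z, hz, rfl⟩ := Finset.mem_image.1 ha
      obtain ⟨z', hz', rfl⟩ := Finset.mem_image.1 ha'
      obtain ⟨w, hw, rfl⟩ := Finset.mem_image.1 hb
      obtain ⟨w', hw', rfl⟩ := Finset.mem_image.1 hb'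
      have hzz : z ≠ z' := fun h => hne (by rw [h])
      have g1 := dist_io ms hms0 z z'
      have g2 := dist_io m hm0 w w'
      rw [hdd, g2] at g1
      have hmr : (0 : ℝ) < m := by exact_mod_cast hm0
      have hmsr : (0 : ℝ) < ms := by exact_mod_cast hms0
      rw [div_eq_div_iff hmr.ne' hmsr.ne'] at g1
      have g3 : nn (w - w') * ms = nn (z - z') * m := by exact_mod_cast g1
      have g4 : (m : ℤ) ∣ nn (w - w') * ms := ⟨nn (z - z'), by rw [g3]; ring⟩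
      have g5 : IsCoprime (m : ℤ) (ms : ℤ) := Nat.isCoprime_iff_coprime.2 hcop
      have g6 : (m : ℤ) ∣ nn (w - w') := g5.dvd_of_dvd_mul_right g4
      have g7 : 0 < nn (z - z') := nn_pos _ (sub_ne_zero.2 hzz)
      have g8 : 0 < nn (w - w') := by
        have : 0 < nn (w - w') * ms := by rw [g3]; positivity
        exact (pos_iff_pos_of_mul_pos this).2 (by exact_mod_cast hms0)
      have g9 := hd w w' hw hw'
      obtain ⟨j, hj⟩ := g6
      have hmz : (0 : ℤ) < m := by exact_mod_cast hm0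
      have g10 : j = 1 := by
        have e1 : 0 < j := by
          by_contra hcon
          push Not at hcon
          nlinarith
        have e2 : j < 2 := by
          by_contra hcon
          push Not at hcon
          nlinarith
        omega
      rw [g10, mul_one] at hj
      have g11 : dist (io m w) (io m w') = 1 := by
        rw [dist_io_iff m hm0 w w' 1 one_pos, hj]
        simp
      rw [hdd, g11])
    (by
      intro d hd
      rw [card_sc m hm0, mul_comm]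
      refine oc_sc_le ms hms0 A (B.card) (F A ms * B.card) ?_ d hd
      intro t ht
      rw [mul_comm]
      exact Nat.mul_le_mul_right _ (hmaxall t ht))
    (by
      intro d hd
      rw [card_sc ms hms0]
      refine oc_sc_le m hm0 B (A.card) (F A ms * B.card) ?_ d hd
      intro t ht
      refine (hcomp t ht).trans ?_
      rw [mul_comm]
      exact Nat.mul_le_mul_right _ (hmaxall t ht))
  rw [card_sc ms hms0, card_sc m hm0] at hX1 hX3
  rw [oc_sc_one ms hms0, oc_sc_one m hm0] at hX3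
  have hAc : A.card = R ^ 2 := card_box R
  refine ⟨X, F A ms * B.card, A.card * F B m, ?_, ?_, ?_, hX2, hX3, ?_⟩
  · rw [hX1, hAc]
    positivity
  · rw [hX1, hAc]
    exact Nat.mul_le_mul_left _ hBc
  · rw [hX1]
    calc 2 * (A.card * B.card) = (2 * A.card) * B.card := by ring
      _ ≤ F A ms * B.card := Nat.mul_le_mul_right _ hA1
  · obtain ⟨V, hV1, hV2⟩ := reps T hT
    have g1 : 2 ^ T.card * h ^ 2 ≤ F B m := by
      calc 2 ^ T.card * h ^ 2 ≤ V.card * h ^ 2 := Nat.mul_le_mul_right _ hV1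
        _ ≤ ∑ v ∈ V, N B v := by
            have := Finset.card_nsmul_le_sum V (fun v => N B v) (h ^ 2)
              (fun v hv => N_disc m h h1 h2 h3 v (hV2 v hv))
            rwa [smul_eq_mul] at this
        _ ≤ F B m := F_ge B V m hV2
    have g2 : B.card ≤ 169 * h ^ 2 := by
      refine hBc.trans ((Nat.pow_le_pow_left (by omega : 12 * h + 1 ≤ 13 * h) 2).trans ?_)
      rw [mul_pow]
      norm_num
    calc X.card * 2 ^ T.card = A.card * (B.card * 2 ^ T.card) := by rw [hX1]; ring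
      _ ≤ A.card * ((169 * h ^ 2) * 2 ^ T.card) := Nat.mul_le_mul_left _ (Nat.mul_le_mul_right _ g2)
      _ = 169 * (A.card * (2 ^ T.card * h ^ 2)) := by ring
      _ ≤ 169 * (A.card * F B m) := Nat.mul_le_mul_left _ (Nat.mul_le_mul_left _ g1)

end Pool.Agent.H131DG
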