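import Pool.Agent.H131DG.Uni

/-! Distance multiplicities of planar point sets, and `D(n)`. -/

open Finset

namespace Pool.Agent.H131DG

/-- the Euclidean plane -/
abbrev Plane : Type := EuclideanSpace ℝ (Fin 2)

open Classical in
/-- the finite set of the distances between two distinct points of `X` -/
noncomputable def distances (X : Finset Plane) : Finset ℝ :=
  X.offDiag.image fun q => dist q.1 q.2

open Classical in
/-- the multiplicity of `d`: the number of two-element subsets of `X` whose two points are at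
distance `d` -/
noncomputable def mult (X : Finset Plane) (d : ℝ) : ℕ :=
  ((X.powersetCard 2).filter fun s => ∃ x ∈ s, ∃ y ∈ s, x ≠ y ∧ dist x y = d).card

/-- the multiplicities of the distinct distances of `X`, sorted in non-increasing order -/
noncomputable def multList (X : Finset Plane) : List ℕ :=
  ((distances X).val.map (mult X)).sort (· ≥ ·)

/-- `a X k` is the `k`-th entry (`k = 1, 2, ...`) of the sorted list of multiplicities, and `0`
if there are fewer than `k` distinct distances -/
noncomputable def a (X : Finset Plane) (k : ℕ) : ℕ := (multList X).getD (k - 1) 0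

/-- `D(n)`: the maximum of `a₁(X) - a₂(X)` over all `n`-point subsets `X` of the plane -/
noncomputable def D (n : ℕ) : ℕ := sSup {g : ℕ | ∃ X : Finset Plane, X.card = n ∧ g = a X 1 - a X 2}

theorem two_mult (X : Finset Plane) (d : ℝ) (hd : 0 < d) : 2 * mult X d = oc X d := by
  classical
  have h1 : oc X d = ∑ s ∈ (X.powersetCard 2).filter
      (fun s => ∃ x ∈ s, ∃ y ∈ s, x ≠ y ∧ dist x y = d),
      (((X ×ˢ X).filter fun q => dist q.1 q.2 = d).filter fun q => ({q.1, q.2} : Finset Plane) = s).card := by
    unfold oc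
    apply Finset.card_eq_sum_card_fiberwise
    intro q hq
    obtain ⟨h2, h3⟩ := Finset.mem_filter.1 (Finset.mem_coe.1 hq)
    obtain ⟨h4, h5⟩ := Finset.mem_product.1 h2
    have hne : q.1 ≠ q.2 := by
      intro h
      rw [h, dist_self] at h3
      linarith
    refine Finset.mem_coe.2 (Finset.mem_filter.2 ⟨Finset.mem_powersetCard.2 ⟨?_, ?_⟩, ?_⟩)
    · intro z hz
      rcases Finset.mem_insert.1 hz with h | h
      · rw [h]; exact h4
      · rw [Finset.mem_singleton.1 h]; exact h5
    · exact Finset.card_pair hne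
    · exact ⟨q.1, Finset.mem_insert_self _ _, q.2,
        Finset.mem_insert_of_mem (Finset.mem_singleton_self _), hne, h3⟩
  rw [h1, mult, mul_comm, ← smul_eq_mul, ← Finset.sum_const]
  apply Finset.sum_congr rfl
  intro s hs
  obtain ⟨h2, x, hx, y, hy, hxy, hd⟩ := Finset.mem_filter.1 hs
  obtain ⟨h3, h4⟩ := Finset.mem_powersetCard.1 h2
  have h5 : ({x, y} : Finset Plane) = s := by
    apply Finset.eq_of_subset_of_card_le
    · intro z hz
      rcases Finset.mem_insert.1 hz with h | h
      · rw [h]; exact hx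
      · rw [Finset.mem_singleton.1 h]; exact hy
    · rw [h4, Finset.card_pair hxy]
  have h6 : ((X ×ˢ X).filter fun q => dist q.1 q.2 = d).filter
      (fun q => ({q.1, q.2} : Finset Plane) = s) = {(x, y), (y, x)} := by
    ext q
    rw [Finset.mem_filter, Finset.mem_filter, Finset.mem_product, Finset.mem_insert,
      Finset.mem_singleton]
    constructor
    · rintro ⟨⟨⟨g1, g2⟩, g3⟩, g4⟩
      have g5 : q.1 ∈ ({x, y} : Finset Plane) := by
        rw [h5, ← g4]; exact Finset.mem_insert_self _ _
      have g6 : q.2 ∈ ({x, y} : Finset Plane) := by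
        rw [h5, ← g4]; exact Finset.mem_insert_of_mem (Finset.mem_singleton_self _)
      rw [Finset.mem_insert, Finset.mem_singleton] at g5 g6
      rcases g5 with g5 | g5 <;> rcases g6 with g6 | g6
      · rw [g5, g6, dist_self] at g3
        linarith
      · left; exact Prod.ext g5 g6
      · right; exact Prod.ext g5 g6
      · rw [g5, g6, dist_self] at g3
        linarith
    · rintro (g | g)
      · rw [g]; exact ⟨⟨⟨h3 hx, h3 hy⟩, hd⟩, h5⟩
      · rw [g]; exact ⟨⟨⟨h3 hy, h3 hx⟩, by rw [dist_comm]; exact hd⟩, by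
          rw [← h5]; exact Finset.pair_comm y x⟩
  rw [h6, Finset.card_pair]
  intro h
  exact hxy (congrArg Prod.fst h)

theorem D_bdd (n : ℕ) : BddAbove {g : ℕ | ∃ X : Finset Plane, X.card = n ∧ g = a X 1 - a X 2} := by
  classical
  refine ⟨n.choose 2, ?_⟩
  rintro g ⟨X, hX, rfl⟩
  refine (Nat.sub_le _ _).trans ?_
  unfold a
  rcases hl : multList X with _ | ⟨b, l⟩
  · simp
  · have hb : b ∈ multList X := by rw [hl]; exact List.mem_cons_self
    unfold multList at hb
    rw [Multiset.mem_sort, Multiset.mem_map] at hb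
    obtain ⟨d, _, hd⟩ := hb
    show b ≤ n.choose 2
    rw [← hd, ← hX, ← Finset.card_powersetCard]
    exact Finset.card_le_card (Finset.filter_subset _ _)

/-- lower bound for `D(n)` from one plane set -/
theorem D_ge (n M G : ℕ) (Z : Finset Plane) (hZ : Z.card = n)
    (h1 : ∀ d > 0, d ≠ 1 → oc Z d ≤ M) (h2 : M + G ≤ oc Z 1) : G ≤ 2 * D n := by
  classical
  rcases Nat.eq_zero_or_pos G with hG | hG
  · omega
  have h3 : a Z 1 - a Z 2 ≤ D n := le_csSup (D_bdd n) ⟨Z, hZ, rfl⟩
  -- distance one occurs
  have h4 : 2 * mult Z 1 = oc Z 1 := two_mult Z 1 one_pos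
  have h5 : (1 : ℝ) ∈ distances Z := by
    have : 0 < oc Z 1 := by omega
    obtain ⟨q, hq⟩ := Finset.card_pos.1 this
    obtain ⟨g1, g2⟩ := Finset.mem_filter.1 hq
    obtain ⟨g3, g4⟩ := Finset.mem_product.1 g1
    refine Finset.mem_image.2 ⟨q, Finset.mem_offDiag.2 ⟨g3, g4, ?_⟩, g2⟩
    intro h
    rw [h, dist_self] at g2
    exact zero_ne_one g2
  have hdpos : ∀ d ∈ distances Z, 0 < d := by
    intro d hd
    obtain ⟨q, hq, rfl⟩ := Finset.mem_image.1 hd
    exact dist_pos.2 (Finset.mem_offDiag.1 hq).2.2
  have h6 : mult Z 1 ∈ multList Z := by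
    unfold multList
    rw [Multiset.mem_sort]
    exact Multiset.mem_map_of_mem _ h5
  have hsort : (multList Z).Pairwise (· ≥ ·) := Multiset.pairwise_sort _ _
  have hcount : Multiset.countP (fun m => M < 2 * m) ((distances Z).val.map (mult Z)) ≤ 1 := by
    rw [Multiset.countP_map]
    have : Multiset.filter (fun d => M < 2 * mult Z d) (distances Z).val =
        ((distances Z).filter (fun d => M < 2 * mult Z d)).val := rfl
    rw [this, Finset.card_val, Finset.card_le_one]
    intro d hd d' hd'
    have key : ∀ d ∈ (distances Z).filter (fun d => M < 2 * mult Z d), d = 1 := by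
      intro d hd
      obtain ⟨g1, g2⟩ := Finset.mem_filter.1 hd
      by_contra hne
      have := h1 d (hdpos d g1) hne
      rw [two_mult Z d (hdpos d g1)] at g2
      omega
    rw [key d hd, key d' hd']
  have hcount' : (multList Z).countP (fun m => M < 2 * m) ≤ 1 := by
    rw [← Multiset.coe_countP]
    unfold multList
    rw [Multiset.sort_eq]
    exact hcount
  rcases hl : multList Z with _ | ⟨b, l⟩
  · rw [hl] at h6
    exact absurd h6 List.not_mem_nil
  have ha1 : a Z 1 = b := by unfold a; rw [hl]; rfl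
  have hb : mult Z 1 ≤ b := by
    rw [hl] at h6 hsort
    rcases List.mem_cons.1 h6 with h | h
    · exact h.le
    · exact (List.pairwise_cons.1 hsort).1 _ h
  have ha2 : 2 * a Z 2 ≤ M := by
    by_contra hcon
    push Not at hcon
    rcases l with _ | ⟨c, l⟩
    · have : a Z 2 = 0 := by unfold a; rw [hl]; rfl
      omega
    · have hc : a Z 2 = c := by unfold a; rw [hl]; rfl
      rw [hc] at hcon
      rw [hl] at hcount' hsort
      have hbc : b ≥ c := (List.pairwise_cons.1 hsort).1 c List.mem_cons_self
      rw [List.countP_cons_of_pos (by simpa using (by omega : M < 2 * b)),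
        List.countP_cons_of_pos (by simpa using hcon)] at hcount'
      omega
  omega

/-- the same for point sets in `ℂ` -/
theorem D_ge_complex (n M G : ℕ) (Z : Finset ℂ) (hZ : Z.card = n)
    (h1 : ∀ d > 0, d ≠ 1 → oc Z d ≤ M) (h2 : M + G ≤ oc Z 1) : G ≤ 2 * D n := by
  classical
  let f : ℂ ≃ₗᵢ[ℝ] Plane := Complex.orthonormalBasisOneI.repr
  have hinj : Function.Injective f := f.injective
  have hoc : ∀ d, oc (Z.image f) d = oc Z d := by
    intro d
    unfold oc
    symm
    apply Finset.card_bij (fun q _ => (f q.1, f q.2))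
    · intro q hq
      obtain ⟨h1, h2⟩ := Finset.mem_filter.1 hq
      obtain ⟨h3, h4⟩ := Finset.mem_product.1 h1
      refine Finset.mem_filter.2 ⟨Finset.mem_product.2 ⟨Finset.mem_image_of_mem _ h3,
        Finset.mem_image_of_mem _ h4⟩, ?_⟩
      rw [f.dist_map]
      exact h2
    · intro q _ q' _ h
      simp only [Prod.mk.injEq] at h
      exact Prod.ext (hinj h.1) (hinj h.2)
    · rintro ⟨u, v⟩ huv
      obtain ⟨h1, h2⟩ := Finset.mem_filter.1 huv
      obtain ⟨h3, h4⟩ := Finset.mem_product.1 h1
      obtain ⟨y, hy, rfl⟩ := Finset.mem_image.1 h3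
      obtain ⟨y', hy', rfl⟩ := Finset.mem_image.1 h4
      refine ⟨(y, y'), Finset.mem_filter.2 ⟨Finset.mem_product.2 ⟨hy, hy'⟩, ?_⟩, rfl⟩
      rw [← f.dist_map y y']
      exact h2
  refine D_ge n M G (Z.image f) ?_ ?_ ?_
  · rw [Finset.card_image_of_injective _ hinj, hZ]
  · intro d hd hd1
    rw [hoc]
    exact h1 d hd hd1
  · rw [hoc]
    exact h2

end Pool.Agent.H131DG
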