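import Pool.Agent.H131DG.Defs
import Pool.Agent.H131DG.Block
import Pool.Agent.H131DG.Primes

/-! The lower bound for `D(n)`. -/

open Finset Filter Topology

namespace Pool.Agent.H131DG

theorem card_pf (m : ℕ) (hm : 0 < m) : 2 ^ m.primeFactors.card ≤ m := by
  calc 2 ^ m.primeFactors.card = ∏ p ∈ m.primeFactors, 2 := by rw [Finset.prod_const]
    _ ≤ ∏ p ∈ m.primeFactors, p :=
        Finset.prod_le_prod' fun p hp => (Nat.prime_of_mem_primeFactors hp).two_le
    _ ≤ m := Nat.le_of_dvd hm (Nat.prod_primeFactors_dvd m)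

/-- choice of primes -/
theorem choose_primes : ∃ c0 : ℝ, 0 < c0 ∧ ∃ N0 : ℕ, ∀ N : ℕ, N0 ≤ N → ∀ ms k : ℕ, 0 < ms →
    (k : ℝ) + ms.primeFactors.card ≤ c0 * (N / Real.log N) →
    ∃ T : Finset ℕ, T.card = k ∧ (∀ q ∈ T, q.Prime ∧ q % 4 = 1) ∧ (∏ q ∈ T, q).Coprime ms ∧
      ∏ q ∈ T, q ≤ N ^ k := by
  obtain ⟨c, hc, N0, h⟩ := class_primes 4 (by norm_num)
  refine ⟨c, hc, N0, fun N hN ms k hms hk => ?_⟩
  have h1 := h N hN 0 (by omega)
  set S := (Icc 1 N).filter (fun q => q.Prime ∧ 0 < q ∧ q ≡ 1 [MOD 4]) with hS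
  have h2 : k ≤ (S \ ms.primeFactors).card := by
    have h3 : S.card ≤ (S \ ms.primeFactors).card + ms.primeFactors.card := by
      have := Finset.le_card_sdiff ms.primeFactors S
      omega
    have h4 : (k : ℝ) + ms.primeFactors.card ≤ S.card := hk.trans h1
    have h5 : k + ms.primeFactors.card ≤ S.card := by exact_mod_cast h4
    omega
  obtain ⟨T, hT1, hT2⟩ := Finset.exists_subset_card_eq h2
  have hT : ∀ q ∈ T, (1 ≤ q ∧ q ≤ N) ∧ q.Prime ∧ q % 4 = 1 ∧ q ∉ ms.primeFactors := by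
    intro q hq
    obtain ⟨g1, g2⟩ := Finset.mem_sdiff.1 (hT1 hq)
    obtain ⟨g3, g4, _, g5⟩ := Finset.mem_filter.1 g1
    exact ⟨Finset.mem_Icc.1 g3, g4, g5, g2⟩
  refine ⟨T, hT2, fun q hq => ⟨(hT q hq).2.1, (hT q hq).2.2.1⟩, ?_, ?_⟩
  · apply Nat.Coprime.prod_left
    intro q hq
    rw [Nat.Prime.coprime_iff_not_dvd (hT q hq).2.1]
    intro hd
    exact (hT q hq).2.2.2 (Nat.mem_primeFactors.2 ⟨(hT q hq).2.1, hd, hms.ne'⟩)
  · rw [← hT2]
    exact Finset.prod_le_pow_card _ _ _ fun q hq => (hT q hq).1.2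

theorem finite_step (n R k : ℕ) (hR : 4 ≤ R) (hRn : R ^ 3 ≤ n) (hk : 4 ≤ k)
    (hT : ∀ ms : ℕ, 0 < ms → ms ≤ 2 * R ^ 2 → ∃ T : Finset ℕ, T.card = k ∧
      (∀ q ∈ T, q.Prime ∧ q % 4 = 1) ∧ (∏ q ∈ T, q).Coprime ms ∧ 16 * (∏ q ∈ T, q) ^ 2 ≤ R) :
    n * 2 ^ k ≤ 676 * D n := by
  obtain ⟨ms, hms0, hms1, hB⟩ := block R hR
  obtain ⟨T, hTk, hTp, hTc, hTR⟩ := hT ms hms0 hms1
  set m := ∏ q ∈ T, q with hm
  have hm2 : 2 ^ k ≤ m := by
    rw [hm, ← hTk, ← Finset.prod_const]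
    exact Finset.prod_le_prod' fun p hp => (hTp p hp).1.two_le
  have hm16 : 16 ≤ m := by
    calc 16 = 2 ^ 4 := by norm_num
      _ ≤ 2 ^ k := Nat.pow_le_pow_right (by norm_num) hk
      _ ≤ m := hm2
  set h := Nat.sqrt (m / 16) with hh
  have h1 : h ^ 2 ≤ m / 16 := Nat.sqrt_le' _
  have h2 : m / 16 < (h + 1) ^ 2 := Nat.lt_succ_sqrt' _
  have h3 : 1 ≤ h := by
    rw [hh]
    have : 0 < Nat.sqrt (m / 16) := Nat.sqrt_pos.2 (by omega)
    omega
  have h4 : 16 * h ^ 2 ≤ m := by omega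
  have h5 : m < 16 * (h + 1) ^ 2 := by omega
  have h6 : 24 * h * (12 * h + 1) ^ 2 ≤ R := by
    have e1 : (12 * h + 1) ^ 2 ≤ 169 * h ^ 2 := by
      refine (Nat.pow_le_pow_left (by omega : 12 * h + 1 ≤ 13 * h) 2).trans ?_
      rw [mul_pow]
      norm_num
    calc 24 * h * (12 * h + 1) ^ 2 ≤ 24 * h * (169 * h ^ 2) := Nat.mul_le_mul_left _ e1
      _ = 4056 * h ^ 3 := by ring
      _ ≤ 4096 * h ^ 4 := Nat.mul_le_mul (by norm_num) (Nat.pow_le_pow_right h3 (by norm_num))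
      _ = 16 * (16 * h ^ 2) ^ 2 := by ring
      _ ≤ 16 * m ^ 2 := Nat.mul_le_mul_left _ (Nat.pow_le_pow_left h4 2)
      _ ≤ R := hTR
  obtain ⟨X, M, G, hX0, hX1, hX2, hX3, hX4, hX5⟩ := hB T h hTp hTc h3 h4 h5 h6
  have h7 : (12 * h + 1) ^ 2 ≤ R := by
    refine le_trans ?_ h6
    exact Nat.le_mul_of_pos_left _ (by omega)
  have h8 : X.card ≤ n := by
    refine hX1.trans ((Nat.mul_le_mul_left _ h7).trans ?_)
    calc R ^ 2 * R = R ^ 3 := by ring
      _ ≤ n := hRn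
  obtain ⟨Z, M', hZ1, hZ2, hZ3⟩ := exact_size X M G n hX0 h8 hX2 hX3 hX4
  have h9 := D_ge_complex n M' ((n / X.card) * G) Z hZ1 hZ2 hZ3
  have h10 : n ≤ 2 * ((n / X.card) * X.card) := by
    have e1 : 1 ≤ n / X.card := (Nat.one_le_div_iff hX0).2 h8
    have e2 := Nat.div_add_mod n X.card
    have e3 := Nat.mod_lt n hX0
    have e4 : X.card * 1 ≤ X.card * (n / X.card) := Nat.mul_le_mul_left _ e1
    rw [mul_comm (n / X.card)]
    omega
  rw [hTk] at hX5
  calc n * 2 ^ k ≤ (2 * ((n / X.card) * X.card)) * 2 ^ k := Nat.mul_le_mul_right _ h10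
    _ = 2 * ((n / X.card) * (X.card * 2 ^ k)) := by ring
    _ ≤ 2 * ((n / X.card) * (169 * G)) := Nat.mul_le_mul_left _ (Nat.mul_le_mul_left _ hX5)
    _ = 338 * ((n / X.card) * G) := by ring
    _ ≤ 338 * (2 * D n) := Nat.mul_le_mul_left _ h9
    _ = 676 * D n := by ring

theorem main : ∃ c : ℝ, 0 < c ∧ ∀ᶠ n : ℕ in atTop,
    (n : ℝ) ^ (1 + c / Real.log (Real.log n)) ≤ (D n : ℝ) := by
  obtain ⟨c0, hc0, N0, hch⟩ := choose_primes
  refine ⟨Real.log 2 / 128, by have := Real.log_pos (by norm_num : (1 : ℝ) < 2); positivity, ?_⟩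
  have hL : Tendsto (fun n : ℕ => Real.log (n : ℝ)) atTop atTop :=
    Real.tendsto_log_atTop.comp tendsto_natCast_atTop_atTop
  -- eventual conditions on `L`
  have hlog1 : ∀ᶠ x : ℝ in atTop, Real.log x ≤ (c0 / 8) * x := by
    have := Real.isLittleO_log_id_atTop.bound (show 0 < c0 / 8 by positivity)
    filter_upwards [this, eventually_ge_atTop (1 : ℝ)] with x hx hx1
    simp only [id, Real.norm_eq_abs] at hx
    rw [abs_of_nonneg (Real.log_nonneg hx1), abs_of_nonneg (by linarith : (0 : ℝ) ≤ x)] at hx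
    exact hx
  have hlog2 : ∀ᶠ x : ℝ in atTop, Real.log x ≤ (1 / 2000) * x := by
    have := Real.isLittleO_log_id_atTop.bound (show (0 : ℝ) < 1 / 2000 by positivity)
    filter_upwards [this, eventually_ge_atTop (1 : ℝ)] with x hx hx1
    simp only [id, Real.norm_eq_abs] at hx
    rw [abs_of_nonneg (Real.log_nonneg hx1), abs_of_nonneg (by linarith : (0 : ℝ) ≤ x)] at hx
    exact hx
  have hlog3 : ∀ᶠ x : ℝ in atTop, Real.log (⌈x⌉₊ : ℝ) ≤ (c0 / 8) * (⌈x⌉₊ : ℝ) :=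
    (tendsto_natCast_atTop_atTop.comp (tendsto_nat_ceil_atTop)).eventually hlog1
  have hE : ∀ᶠ x : ℝ in atTop, (N0 : ℝ) ≤ x ∧ 10 ≤ x ∧ 8 * Real.log 17 ≤ x ∧
      Real.log (⌈x⌉₊ : ℝ) ≤ (c0 / 8) * (⌈x⌉₊ : ℝ) ∧ Real.log x ≤ (1 / 2000) * x := by
    filter_upwards [eventually_ge_atTop (N0 : ℝ), eventually_ge_atTop (10 : ℝ),
      eventually_ge_atTop (8 * Real.log 17), hlog3, hlog2] with x h1 h2 h3 h4 h5
    exact ⟨h1, h2, h3, h4, h5⟩
  filter_upwards [hL.eventually hE, eventually_ge_atTop 1] with n hn hn1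
  obtain ⟨hnN0, hn10, hn17, hnc, hnl⟩ := hn
  set L : ℝ := Real.log n with hLdef
  have hnpos : (0 : ℝ) < n := by exact_mod_cast hn1
  set l : ℕ := ⌈L⌉₊ with hldef
  have hlL : L ≤ l := Nat.le_ceil L
  have hlL' : (l : ℝ) < L + 1 := Nat.ceil_lt_add_one (by linarith)
  have hl10 : (10 : ℝ) ≤ l := hn10.trans hlL
  have hlog_l : 2 ≤ Real.log l := by
    rw [Real.le_log_iff_exp_le (by linarith)]
    refine le_trans ?_ hl10
    have := Real.exp_one_lt_d9
    have h2 : Real.exp 2 = Real.exp 1 * Real.exp 1 := by rw [← Real.exp_add]; norm_num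
    rw [h2]
    nlinarith [Real.exp_pos 1]
  have hlogL : 0 < Real.log L := Real.log_pos (by linarith)
  have hlogl2 : Real.log l ≤ 2 * Real.log L := by
    have : Real.log l ≤ Real.log (L ^ 2) := Real.log_le_log (by linarith) (by nlinarith)
    rwa [Real.log_pow, Nat.cast_ofNat] at this
  set N : ℕ := l ^ 2 with hNdef
  have hlogN : Real.log (N : ℝ) = 2 * Real.log l := by
    rw [hNdef, Nat.cast_pow, Real.log_pow, Nat.cast_ofNat]
  set k : ℕ := ⌊L / (16 * Real.log (N : ℝ))⌋₊ with hkdef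
  have hden : 0 < 16 * Real.log (N : ℝ) := by rw [hlogN]; linarith
  have hkle : (k : ℝ) ≤ L / (16 * Real.log (N : ℝ)) := Nat.floor_le (by positivity)
  have hkgt : L / (16 * Real.log (N : ℝ)) < k + 1 := Nat.lt_floor_add_one _
  have hkL : (k : ℝ) ≤ L := by
    refine hkle.trans ?_
    rw [div_le_iff₀ hden, hlogN]
    nlinarith
  set u : ℝ := L / Real.log L with hudef
  have hu : 2000 ≤ u := by
    rw [hudef, le_div_iff₀ hlogL]
    linarith
  have hku : u / 64 < k + 1 := by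
    refine lt_of_le_of_lt ?_ hkgt
    rw [hudef, div_div, hlogN]
    apply div_le_div_of_nonneg_left (by linarith) (by linarith) (by nlinarith)
  have hk4 : 4 ≤ k := by
    have : (4 : ℝ) < k + 1 := by linarith
    have : 4 < k + 1 := by exact_mod_cast this
    omega
  -- the eighth root of `n`
  set w : ℝ := Real.exp (L / 8) with hwdef
  have hw8 : w ^ 8 = n := by
    rw [hwdef, ← Real.exp_nat_mul]
    have : ((8 : ℕ) : ℝ) * (L / 8) = L := by push_cast; ring
    rw [this, hLdef, Real.exp_log hnpos]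
  have hw17 : 17 ≤ w := by
    have : Real.exp (Real.log 17) ≤ Real.exp (L / 8) := Real.exp_le_exp.2 (by linarith)
    rwa [Real.exp_log (by norm_num)] at this
  set R : ℕ := ⌊w ^ 2⌋₊ with hRdef
  have hRle : (R : ℝ) ≤ w ^ 2 := Nat.floor_le (by positivity)
  have hRgt : w ^ 2 < R + 1 := Nat.lt_floor_add_one _
  have hR4 : 4 ≤ R := by
    have : (4 : ℝ) < R + 1 := by nlinarith
    have : 4 < R + 1 := by exact_mod_cast this
    omega
  have hR3 : R ^ 3 ≤ n := by
    have h1 : (R : ℝ) ^ 3 ≤ n := by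
      calc (R : ℝ) ^ 3 ≤ (w ^ 2) ^ 3 := pow_le_pow_left₀ (by positivity) hRle 3
        _ = w ^ 6 := by ring
        _ ≤ w ^ 8 := pow_le_pow_right₀ (by linarith) (by norm_num)
        _ = n := hw8
    exact_mod_cast h1
  have hNk : ((N : ℝ) ^ k) ^ 2 ≤ w := by
    have hNpos : (0 : ℝ) < N := by rw [hNdef, Nat.cast_pow]; positivity
    have h1 : (N : ℝ) ^ k = Real.exp (k * Real.log N) := by
      rw [Real.exp_nat_mul, Real.exp_log hNpos]
    rw [h1, ← Real.exp_nat_mul, hwdef]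
    apply Real.exp_le_exp.2
    rw [le_div_iff₀ hden] at hkle
    push_cast
    linarith
  have hfin := finite_step n R k hR4 hR3 hk4 (by
    intro ms hms0 hms1
    have hω : (ms.primeFactors.card : ℝ) ≤ L := by
      have h1 := card_pf ms hms0
      have h2 : (2 : ℝ) ^ ms.primeFactors.card ≤ 2 * w ^ 4 := by
        calc (2 : ℝ) ^ ms.primeFactors.card ≤ ms := by exact_mod_cast h1
          _ ≤ 2 * (R : ℝ) ^ 2 := by exact_mod_cast hms1
          _ ≤ 2 * (w ^ 2) ^ 2 := by gcongr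
          _ = 2 * w ^ 4 := by ring
      have h3 := Real.log_le_log (by positivity) h2
      rw [Real.log_pow, Real.log_mul (by norm_num) (by positivity), Real.log_pow, hwdef,
        Real.log_exp] at h3
      have h4 := Real.log_two_gt_d9
      push_cast at h3
      by_contra hcon
      push Not at hcon
      nlinarith
    have hprime : (k : ℝ) + ms.primeFactors.card ≤ c0 * (N / Real.log N) := by
      have h1 : (k : ℝ) + ms.primeFactors.card ≤ 2 * L := by linarith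
      refine h1.trans ?_
      rw [hlogN, mul_div_assoc', le_div_iff₀ (by linarith), hNdef, Nat.cast_pow]
      have h2 : L * Real.log l ≤ l * ((c0 / 8) * l) :=
        mul_le_mul hlL hnc (by linarith) (by linarith)
      have h3 : 0 ≤ c0 * (l : ℝ) ^ 2 := by positivity
      calc 2 * L * (2 * Real.log l) = 4 * (L * Real.log l) := by ring
        _ ≤ 4 * (l * ((c0 / 8) * l)) := by linarith
        _ = (1 / 2) * (c0 * (l : ℝ) ^ 2) := by ring
        _ ≤ c0 * (l : ℝ) ^ 2 := by linarith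
    obtain ⟨T, hT1, hT2, hT3, hT4⟩ := hch N (by
      have h1 : (N0 : ℝ) ≤ N := by
        rw [hNdef, Nat.cast_pow]
        nlinarith
      exact_mod_cast h1) ms k hms0 hprime
    refine ⟨T, hT1, hT2, hT3, ?_⟩
    have h1 : ((∏ q ∈ T, q : ℕ) : ℝ) ≤ (N : ℝ) ^ k := by exact_mod_cast hT4
    have h2 : ((∏ q ∈ T, q : ℕ) : ℝ) ^ 2 ≤ w :=
      (pow_le_pow_left₀ (by positivity) h1 2).trans hNk
    have h3' : 16 * w ≤ w ^ 2 := by
      rw [sq]
      exact mul_le_mul_of_nonneg_right (by linarith) (by linarith)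
    have h3 : 16 * ((∏ q ∈ T, q : ℕ) : ℝ) ^ 2 < R + 1 := by linarith
    have h4 : 16 * (∏ q ∈ T, q) ^ 2 < R + 1 := by exact_mod_cast h3
    omega)
  have hfin' : (n : ℝ) * 2 ^ k ≤ 676 * D n := by exact_mod_cast hfin
  -- final comparison
  have hpow : (n : ℝ) ^ (1 + Real.log 2 / 128 / Real.log L) = n * Real.exp (Real.log 2 / 128 * u) := by
    rw [Real.rpow_add hnpos, Real.rpow_one, Real.rpow_def_of_pos hnpos, ← hLdef, hudef]
    congr 2
    field_simp
  rw [hpow]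
  have h2k : (2 : ℝ) ^ k = Real.exp (k * Real.log 2) := by
    rw [Real.exp_nat_mul, Real.exp_log (by norm_num)]
  have hlog2 := Real.log_two_gt_d9
  have hlog2' := Real.log_two_lt_d9
  have h676 : 676 * Real.exp (Real.log 2 / 128 * u) ≤ (2 : ℝ) ^ k := by
    rw [h2k]
    have h1 : (676 : ℝ) ≤ Real.exp (10 * Real.log 2) := by
      have : Real.exp (10 * Real.log 2) = 2 ^ 10 := by
        have h := Real.exp_nat_mul (Real.log 2) 10
        rw [Real.exp_log (by norm_num)] at h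
        push_cast at h
        exact h
      rw [this]; norm_num
    calc 676 * Real.exp (Real.log 2 / 128 * u)
        ≤ Real.exp (10 * Real.log 2) * Real.exp (Real.log 2 / 128 * u) := by gcongr
      _ = Real.exp (10 * Real.log 2 + Real.log 2 / 128 * u) := by rw [Real.exp_add]
      _ ≤ Real.exp (k * Real.log 2) := by
          apply Real.exp_le_exp.2
          have h2 : 10 + u / 128 ≤ k := by linarith
          nlinarith
  have : 676 * ((n : ℝ) * Real.exp (Real.log 2 / 128 * u)) ≤ 676 * D n := by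
    calc 676 * ((n : ℝ) * Real.exp (Real.log 2 / 128 * u))
        = n * (676 * Real.exp (Real.log 2 / 128 * u)) := by ring
      _ ≤ n * 2 ^ k := by gcongr
      _ ≤ 676 * D n := hfin'
  linarith

end Pool.Agent.H131DG
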