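import Mathlib

/-! Planar point sets with one very popular distance: generic products and generic unions. -/

open Finset

namespace Pool.Agent.H131DG

/-- number of ordered pairs of points of `X` at distance `d` -/
noncomputable def oc {E : Type*} [MetricSpace E] (X : Finset E) (d : ℝ) : ℕ :=
  ((X ×ˢ X).filter fun q => dist q.1 q.2 = d).card

theorem quad_fin {K : Type*} [Field K] (α β γ : K) (h : β ≠ 0 ∨ γ ≠ 0) :
    {t : K | γ * t ^ 2 + β * t + α = 0}.Finite := by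
  classical
  set p : Polynomial K := Polynomial.C γ * Polynomial.X ^ 2 + Polynomial.C β * Polynomial.X
    + Polynomial.C α with hp
  have hne : p ≠ 0 := by
    intro h0
    have h1 := congrArg (fun q => q.coeff 1) h0
    have h2 := congrArg (fun q => q.coeff 2) h0
    simp [hp, Polynomial.coeff_C, Polynomial.coeff_X_pow] at h1 h2
    rcases h with h | h
    · exact h h1
    · exact h h2
  refine (p.roots.toFinset.finite_toSet).subset ?_
  intro t ht
  have ht' : γ * t ^ 2 + β * t + α = 0 := ht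
  rw [Finset.mem_coe, Multiset.mem_toFinset, Polynomial.mem_roots hne]
  simp [hp, Polynomial.IsRoot, ht']

theorem circle_inf : {e : ℂ | ‖e‖ = 1}.Infinite := by
  have h1 : (Set.Icc (0 : ℝ) 1).Infinite := Set.Icc_infinite (by norm_num)
  have h2 : Set.InjOn (fun t : ℝ => (⟨t, Real.sqrt (1 - t ^ 2)⟩ : ℂ)) (Set.Icc (0 : ℝ) 1) := by
    intro a _ b _ hab
    exact congrArg Complex.re hab
  refine (h1.image h2).mono ?_
  rintro _ ⟨t, ht, rfl⟩
  have h3 : (0 : ℝ) ≤ 1 - t ^ 2 := by nlinarith [ht.1, ht.2]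
  show ‖(⟨t, Real.sqrt (1 - t ^ 2)⟩ : ℂ)‖ = 1
  rw [Complex.norm_def, Complex.normSq_mk, Real.mul_self_sqrt h3]
  have : t * t + (1 - t ^ 2) = 1 := by ring
  rw [this, Real.sqrt_one]

open ComplexConjugate in
theorem normSq_expand (V W e : ℂ) (he : ‖e‖ = 1) :
    ‖V + e * W‖ ^ 2 = ‖V‖ ^ 2 + ‖W‖ ^ 2 + 2 * (V * conj W * conj e).re := by
  have h1 : Complex.normSq e = 1 := by rw [Complex.normSq_eq_norm_sq, he]; norm_num
  rw [← Complex.normSq_eq_norm_sq, ← Complex.normSq_eq_norm_sq, ← Complex.normSq_eq_norm_sq,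
    Complex.normSq_add, Complex.normSq_mul, h1, one_mul]
  congr 2
  simp only [map_mul]
  ring_nf

open ComplexConjugate in
theorem bad_fin (V W V' W' : ℂ) (h : V * conj W ≠ V' * conj W') :
    {e : ℂ | ‖e‖ = 1 ∧ ‖V + e * W‖ = ‖V' + e * W'‖}.Finite := by
  set c1 : ℂ := V * conj W - V' * conj W' with hc1
  set c0 : ℂ := ((‖V‖ ^ 2 + ‖W‖ ^ 2 - ‖V'‖ ^ 2 - ‖W'‖ ^ 2 : ℝ) : ℂ) with hc0
  have hc : c1 ≠ 0 := sub_ne_zero.2 h
  refine (quad_fin c1 c0 (conj c1) (Or.inr ?_)).subset ?_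
  · intro h0
    exact hc ((map_eq_zero (starRingEnd ℂ)).1 h0)
  rintro e ⟨he, heq⟩
  show conj c1 * e ^ 2 + c0 * e + c1 = 0
  have h1 := normSq_expand V W e he
  have h2 := normSq_expand V' W' e he
  rw [heq] at h1
  have hee : e * conj e = 1 := by
    rw [Complex.mul_conj, Complex.normSq_eq_norm_sq, he]; norm_num
  have h3 : c0 + (c1 * conj e + conj (c1 * conj e)) = 0 := by
    rw [Complex.add_conj, hc0, ← Complex.ofReal_add]
    have h4 : (c1 * conj e).re = (V * conj W * conj e).re - (V' * conj W' * conj e).re := by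
      rw [← Complex.sub_re, ← sub_mul]
    rw [h4]
    have h5 : (‖V‖ ^ 2 + ‖W‖ ^ 2 - ‖V'‖ ^ 2 - ‖W'‖ ^ 2) +
        2 * ((V * conj W * conj e).re - (V' * conj W' * conj e).re) = 0 := by linarith
    rw [h5]; simp
  have h6 : conj (c1 * conj e) = conj c1 * e := by simp
  rw [h6] at h3
  linear_combination e * h3 - c1 * hee

open ComplexConjugate in
theorem exists_generic (T : Finset (ℂ × ℂ × ℂ × ℂ)) : ∃ e : ℂ, ‖e‖ = 1 ∧ ∀ t ∈ T,
    t.1 * conj t.2.1 ≠ t.2.2.1 * conj t.2.2.2 →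
      ‖t.1 + e * t.2.1‖ ≠ ‖t.2.2.1 + e * t.2.2.2‖ := by
  classical
  have h1 : (⋃ t ∈ T.filter (fun t => t.1 * conj t.2.1 ≠ t.2.2.1 * conj t.2.2.2),
      {e : ℂ | ‖e‖ = 1 ∧ ‖t.1 + e * t.2.1‖ = ‖t.2.2.1 + e * t.2.2.2‖}).Finite := by
    refine Set.Finite.biUnion (Finset.finite_toSet _) ?_
    intro t ht
    exact bad_fin _ _ _ _ (Finset.mem_filter.1 (Finset.mem_coe.1 ht)).2
  obtain ⟨e, he, hne⟩ := circle_inf.exists_notMem_finite h1
  refine ⟨e, he, fun t ht h hh => hne ?_⟩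
  simp only [Set.mem_iUnion]
  exact ⟨t, Finset.mem_filter.2 ⟨ht, h⟩, he, hh⟩

open ComplexConjugate in
theorem prod_lemma (A B : Finset ℂ) (M : ℕ)
    (h1 : ∀ a ∈ A, ∀ a' ∈ A, ∀ b ∈ B, ∀ b' ∈ B, a ≠ a' → dist a a' = dist b b' → dist a a' = 1)
    (h2 : ∀ d > 0, oc A d * B.card ≤ M)
    (h3 : ∀ d > 0, A.card * oc B d ≤ M) :
    ∃ X : Finset ℂ, X.card = A.card * B.card ∧ (∀ d > 0, d ≠ 1 → oc X d ≤ M) ∧
      oc A 1 * B.card + A.card * oc B 1 ≤ oc X 1 := by
  classical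
  set Q : Finset ((ℂ × ℂ) × (ℂ × ℂ)) := (A ×ˢ B) ×ˢ (A ×ˢ B) with hQ
  set TT : Finset (ℂ × ℂ × ℂ × ℂ) := (Q ×ˢ Q).image fun q =>
    (q.1.1.1 - q.1.2.1, q.1.1.2 - q.1.2.2, q.2.1.1 - q.2.2.1, q.2.1.2 - q.2.2.2) with hTT
  obtain ⟨e, he, hgen⟩ := exists_generic TT
  have hgen' : ∀ t ∈ Q, ∀ s ∈ Q, ‖(t.1.1 - t.2.1) + e * (t.1.2 - t.2.2)‖ =
      ‖(s.1.1 - s.2.1) + e * (s.1.2 - s.2.2)‖ →
      (t.1.1 - t.2.1) * conj (t.1.2 - t.2.2) = (s.1.1 - s.2.1) * conj (s.1.2 - s.2.2) := by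
    intro t ht s hs hts
    by_contra hne
    refine hgen (t.1.1 - t.2.1, t.1.2 - t.2.2, s.1.1 - s.2.1, s.1.2 - s.2.2) ?_ hne hts
    exact Finset.mem_image.2 ⟨(t, s), Finset.mem_product.2 ⟨ht, hs⟩, rfl⟩
  have he0 : e ≠ 0 := by
    intro h0
    rw [h0, norm_zero] at he
    exact zero_ne_one he
  -- the map
  set φ : ℂ × ℂ → ℂ := fun q => q.1 + e * q.2 with hφ
  have hφd : ∀ q q' : ℂ × ℂ, dist (φ q) (φ q') = ‖(q.1 - q'.1) + e * (q.2 - q'.2)‖ := by
    intro q q'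
    rw [dist_eq_norm]
    congr 1
    simp only [hφ]
    ring
  have hinj : Set.InjOn φ (A ×ˢ B : Finset (ℂ × ℂ)) := by
    intro q hq q' hq' hqq
    have hq1 := Finset.mem_coe.1 hq
    have hq2 := Finset.mem_coe.1 hq'
    have hd : dist (φ q) (φ q') = 0 := by rw [hqq, dist_self]
    rw [hφd] at hd
    have h4 := hgen' (q, q') (Finset.mem_product.2 ⟨hq1, hq2⟩) (q, q)
      (Finset.mem_product.2 ⟨hq1, hq1⟩) (by simpa using hd)
    simp only [sub_self, map_zero, mul_zero] at h4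
    have h5 : (q.1 - q'.1) + e * (q.2 - q'.2) = 0 := norm_eq_zero.1 hd
    rcases mul_eq_zero.1 h4 with h6 | h6
    · rw [h6, zero_add] at h5
      rcases mul_eq_zero.1 h5 with h7 | h7
      · exact absurd h7 he0
      · exact Prod.ext (sub_eq_zero.1 h6) (sub_eq_zero.1 h7)
    · have h7 : q.2 - q'.2 = 0 := (map_eq_zero (starRingEnd ℂ)).1 h6
      rw [h7, mul_zero, add_zero] at h5
      exact Prod.ext (sub_eq_zero.1 h5) (sub_eq_zero.1 h7)
  -- ordered counts of the image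
  have hoc : ∀ d : ℝ, oc ((A ×ˢ B).image φ) d =
      (Q.filter fun t => ‖(t.1.1 - t.2.1) + e * (t.1.2 - t.2.2)‖ = d).card := by
    intro d
    unfold oc
    symm
    apply Finset.card_bij (fun t _ => (φ t.1, φ t.2))
    · intro t ht
      rw [Finset.mem_filter] at ht ⊢
      refine ⟨Finset.mem_product.2 ⟨Finset.mem_image_of_mem _ (Finset.mem_product.1 ht.1).1,
        Finset.mem_image_of_mem _ (Finset.mem_product.1 ht.1).2⟩, ?_⟩
      rw [hφd]
      exact ht.2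
    · intro t ht t' ht' h
      have hm := Finset.mem_product.1 (Finset.mem_filter.1 ht).1
      have hm' := Finset.mem_product.1 (Finset.mem_filter.1 ht').1
      have h8 := congrArg Prod.fst h
      have h9 := congrArg Prod.snd h
      exact Prod.ext (hinj (Finset.mem_coe.2 hm.1) (Finset.mem_coe.2 hm'.1) h8)
        (hinj (Finset.mem_coe.2 hm.2) (Finset.mem_coe.2 hm'.2) h9)
    · rintro ⟨u, v⟩ huv
      rw [Finset.mem_filter, Finset.mem_product] at huv
      obtain ⟨⟨hu, hv⟩, hd⟩ := huv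
      obtain ⟨q, hq, rfl⟩ := Finset.mem_image.1 hu
      obtain ⟨q', hq', rfl⟩ := Finset.mem_image.1 hv
      refine ⟨(q, q'), ?_, rfl⟩
      rw [Finset.mem_filter]
      refine ⟨Finset.mem_product.2 ⟨hq, hq'⟩, ?_⟩
      rw [← hφd]
      exact hd
  refine ⟨(A ×ˢ B).image φ, ?_, ?_, ?_⟩
  · rw [Finset.card_image_of_injOn hinj, Finset.card_product]
  · intro d hd hd1
    rw [hoc]
    rcases Finset.eq_empty_or_nonempty
      (Q.filter fun t => ‖(t.1.1 - t.2.1) + e * (t.1.2 - t.2.2)‖ = d) with hem | ⟨t0, ht0⟩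
    · rw [hem]; simp
    obtain ⟨ht0Q, ht0d⟩ := Finset.mem_filter.1 ht0
    have hmem : ∀ t ∈ Q, (t.1.1 ∈ A ∧ t.1.2 ∈ B) ∧ (t.2.1 ∈ A ∧ t.2.2 ∈ B) := by
      intro t ht
      have := Finset.mem_product.1 ht
      exact ⟨Finset.mem_product.1 this.1, Finset.mem_product.1 this.2⟩
    -- relations
    have hrel : ∀ t ∈ Q.filter (fun t => ‖(t.1.1 - t.2.1) + e * (t.1.2 - t.2.2)‖ = d),
        (t.1.1 - t.2.1) * conj (t.1.2 - t.2.2) = (t0.1.1 - t0.2.1) * conj (t0.1.2 - t0.2.2) ∧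
        ‖t.1.1 - t.2.1‖ ^ 2 + ‖t.1.2 - t.2.2‖ ^ 2 =
          ‖t0.1.1 - t0.2.1‖ ^ 2 + ‖t0.1.2 - t0.2.2‖ ^ 2 := by
      intro t ht
      obtain ⟨htQ, htd⟩ := Finset.mem_filter.1 ht
      have h4 := hgen' t htQ t0 ht0Q (htd.trans ht0d.symm)
      refine ⟨h4, ?_⟩
      have h5 := normSq_expand (t.1.1 - t.2.1) (t.1.2 - t.2.2) e he
      have h6 := normSq_expand (t0.1.1 - t0.2.1) (t0.1.2 - t0.2.2) e he
      rw [htd, h4] at h5
      rw [ht0d] at h6
      linarith
    by_cases hV : t0.1.1 - t0.2.1 = 0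
    · -- pure B
      have hWd : ‖t0.1.2 - t0.2.2‖ = d := by
        rw [hV, zero_add, norm_mul, he, one_mul] at ht0d
        exact ht0d
      have hall : ∀ t ∈ Q.filter (fun t => ‖(t.1.1 - t.2.1) + e * (t.1.2 - t.2.2)‖ = d),
          t.1.1 = t.2.1 ∧ dist t.1.2 t.2.2 = d := by
        intro t ht
        obtain ⟨h4, h5⟩ := hrel t ht
        obtain ⟨htQ, htd⟩ := Finset.mem_filter.1 ht
        obtain ⟨⟨ha, hb⟩, ha', hb'⟩ := hmem t htQ
        rw [hV, zero_mul] at h4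
        rw [hV, hWd, norm_zero] at h5
        rcases mul_eq_zero.1 h4 with h6 | h6
        · rw [h6, norm_zero] at h5
          refine ⟨sub_eq_zero.1 h6, ?_⟩
          rw [dist_eq_norm]
          have := norm_nonneg (t.1.2 - t.2.2)
          nlinarith
        · exfalso
          have h7 : t.1.2 - t.2.2 = 0 := (map_eq_zero (starRingEnd ℂ)).1 h6
          rw [h7, norm_zero] at h5
          have h8 : ‖t.1.1 - t.2.1‖ = d := by
            have := norm_nonneg (t.1.1 - t.2.1)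
            nlinarith
          obtain ⟨⟨_, hb0⟩, _, hb0'⟩ := hmem t0 ht0Q
          have hne : t.1.1 ≠ t.2.1 := by
            intro h9
            rw [h9, sub_self, norm_zero] at h8
            linarith
          have := h1 _ ha _ ha' _ hb0 _ hb0' hne (by rw [dist_eq_norm, dist_eq_norm, h8, hWd])
          rw [dist_eq_norm, h8] at this
          exact hd1 this
      refine le_trans ?_ (h3 d hd)
      unfold oc
      rw [← Finset.card_product]
      apply Finset.card_le_card_of_injOn (fun t => (t.1.1, (t.1.2, t.2.2)))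
      · intro t ht
        have ht' := Finset.mem_coe.1 ht
        obtain ⟨h4, h5⟩ := hall t ht'
        obtain ⟨htQ, htd⟩ := Finset.mem_filter.1 ht'
        obtain ⟨⟨ha, hb⟩, ha', hb'⟩ := hmem t htQ
        exact Finset.mem_coe.2 (Finset.mem_product.2 ⟨ha, Finset.mem_filter.2
          ⟨Finset.mem_product.2 ⟨hb, hb'⟩, h5⟩⟩)
      · intro t ht t' ht' h
        have e1 := (hall t (Finset.mem_coe.1 ht)).1
        have e2 := (hall t' (Finset.mem_coe.1 ht')).1
        simp only [Prod.mk.injEq] at h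
        obtain ⟨g1, g2, g3⟩ := h
        exact Prod.ext (Prod.ext g1 g2) (Prod.ext (by rw [← e1, ← e2, g1]) g3)
    by_cases hW : t0.1.2 - t0.2.2 = 0
    · -- pure A
      have hVd : ‖t0.1.1 - t0.2.1‖ = d := by
        rw [hW, mul_zero, add_zero] at ht0d
        exact ht0d
      have hall : ∀ t ∈ Q.filter (fun t => ‖(t.1.1 - t.2.1) + e * (t.1.2 - t.2.2)‖ = d),
          t.1.2 = t.2.2 ∧ dist t.1.1 t.2.1 = d := by
        intro t ht
        obtain ⟨h4, h5⟩ := hrel t ht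
        obtain ⟨htQ, htd⟩ := Finset.mem_filter.1 ht
        obtain ⟨⟨ha, hb⟩, ha', hb'⟩ := hmem t htQ
        rw [hW, map_zero, mul_zero] at h4
        rw [hW, hVd, norm_zero] at h5
        rcases mul_eq_zero.1 h4 with h6 | h6
        · exfalso
          rw [h6, norm_zero] at h5
          have h8 : ‖t.1.2 - t.2.2‖ = d := by
            have := norm_nonneg (t.1.2 - t.2.2)
            nlinarith
          obtain ⟨⟨ha0, _⟩, ha0', _⟩ := hmem t0 ht0Q
          have := h1 _ ha0 _ ha0' _ hb _ hb' (fun h9 => hV (sub_eq_zero.2 h9))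
            (by rw [dist_eq_norm, dist_eq_norm, h8, hVd])
          rw [dist_eq_norm, hVd] at this
          exact hd1 this
        · have h7 : t.1.2 - t.2.2 = 0 := (map_eq_zero (starRingEnd ℂ)).1 h6
          rw [h7, norm_zero] at h5
          refine ⟨sub_eq_zero.1 h7, ?_⟩
          rw [dist_eq_norm]
          have := norm_nonneg (t.1.1 - t.2.1)
          nlinarith
      refine le_trans ?_ (h2 d hd)
      unfold oc
      rw [← Finset.card_product]
      apply Finset.card_le_card_of_injOn (fun t => ((t.1.1, t.2.1), t.1.2))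
      · intro t ht
        have ht' := Finset.mem_coe.1 ht
        obtain ⟨h4, h5⟩ := hall t ht'
        obtain ⟨htQ, htd⟩ := Finset.mem_filter.1 ht'
        obtain ⟨⟨ha, hb⟩, ha', hb'⟩ := hmem t htQ
        exact Finset.mem_coe.2 (Finset.mem_product.2 ⟨Finset.mem_filter.2
          ⟨Finset.mem_product.2 ⟨ha, ha'⟩, h5⟩, hb⟩)
      · intro t ht t' ht' h
        have e1 := (hall t (Finset.mem_coe.1 ht)).1
        have e2 := (hall t' (Finset.mem_coe.1 ht')).1
        simp only [Prod.mk.injEq] at h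
        obtain ⟨⟨g1, g2⟩, g3⟩ := h
        exact Prod.ext (Prod.ext g1 g3) (Prod.ext g2 (by rw [← e1, ← e2, g3]))
    -- cross
    have hV' : 0 < ‖t0.1.1 - t0.2.1‖ := norm_pos_iff.2 hV
    have hW' : 0 < ‖t0.1.2 - t0.2.2‖ := norm_pos_iff.2 hW
    have hall : ∀ t ∈ Q.filter (fun t => ‖(t.1.1 - t.2.1) + e * (t.1.2 - t.2.2)‖ = d),
        t.1.2 - t.2.2 ≠ 0 ∧ ‖t.1.2 - t.2.2‖ = ‖t0.1.2 - t0.2.2‖ := by
      intro t ht
      obtain ⟨h4, h5⟩ := hrel t ht
      obtain ⟨htQ, htd⟩ := Finset.mem_filter.1 ht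
      obtain ⟨⟨ha, hb⟩, ha', hb'⟩ := hmem t htQ
      obtain ⟨⟨ha0, hb0⟩, ha0', hb0'⟩ := hmem t0 ht0Q
      have h6 : ‖t.1.1 - t.2.1‖ * ‖t.1.2 - t.2.2‖ = ‖t0.1.1 - t0.2.1‖ * ‖t0.1.2 - t0.2.2‖ := by
        have := congrArg norm h4
        rwa [norm_mul, norm_mul, RCLike.norm_conj, RCLike.norm_conj] at this
      have hVp : 0 < ‖t.1.1 - t.2.1‖ := by
        rcases (norm_nonneg (t.1.1 - t.2.1)).eq_or_lt with h7 | h7
        · rw [← h7, zero_mul] at h6
          exact absurd h6 (mul_pos hV' hW').ne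
        · exact h7
      have hWp : 0 < ‖t.1.2 - t.2.2‖ := by
        rcases (norm_nonneg (t.1.2 - t.2.2)).eq_or_lt with h7 | h7
        · rw [← h7, mul_zero] at h6
          exact absurd h6 (mul_pos hV' hW').ne
        · exact h7
      refine ⟨norm_pos_iff.1 hWp, ?_⟩
      have h7 : (‖t.1.2 - t.2.2‖ ^ 2 - ‖t0.1.2 - t0.2.2‖ ^ 2) *
          (‖t.1.2 - t.2.2‖ ^ 2 - ‖t0.1.1 - t0.2.1‖ ^ 2) = 0 := by
        have h8 : ‖t.1.1 - t.2.1‖ ^ 2 * ‖t.1.2 - t.2.2‖ ^ 2 =
            ‖t0.1.1 - t0.2.1‖ ^ 2 * ‖t0.1.2 - t0.2.2‖ ^ 2 := by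
          rw [← mul_pow, h6, mul_pow]
        linear_combination (‖t.1.2 - t.2.2‖ ^ 2) * h5 - h8
      rcases mul_eq_zero.1 h7 with h8 | h8
      · nlinarith
      · have h9 : ‖t.1.2 - t.2.2‖ = ‖t0.1.1 - t0.2.1‖ := by nlinarith
        have h10 : ‖t.1.1 - t.2.1‖ = ‖t0.1.2 - t0.2.2‖ := by
          rw [h9, mul_comm] at h6
          exact mul_left_cancel₀ hV'.ne' h6
        have h11 := h1 _ ha0 _ ha0' _ hb _ hb' (fun h9 => hV (sub_eq_zero.2 h9))
          (by rw [dist_eq_norm, dist_eq_norm, h9])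
        have h12 := h1 _ ha _ ha' _ hb0 _ hb0' (fun h9 => (norm_pos_iff.1 hVp) (sub_eq_zero.2 h9))
          (by rw [dist_eq_norm, dist_eq_norm, h10])
        rw [dist_eq_norm] at h11 h12
        rw [h9, h11, ← h10, h12]
    refine le_trans ?_ (h3 ‖t0.1.2 - t0.2.2‖ hW')
    unfold oc
    rw [← Finset.card_product]
    apply Finset.card_le_card_of_injOn (fun t => (t.1.1, (t.1.2, t.2.2)))
    · intro t ht
      have ht' := Finset.mem_coe.1 ht
      obtain ⟨h4, h5⟩ := hall t ht'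
      obtain ⟨htQ, htd⟩ := Finset.mem_filter.1 ht'
      obtain ⟨⟨ha, hb⟩, ha', hb'⟩ := hmem t htQ
      exact Finset.mem_coe.2 (Finset.mem_product.2 ⟨ha, Finset.mem_filter.2
        ⟨Finset.mem_product.2 ⟨hb, hb'⟩, by rw [dist_eq_norm]; exact h5⟩⟩)
    · intro t ht t' ht' h
      have e1 := (hrel t (Finset.mem_coe.1 ht)).1
      have e2 := (hrel t' (Finset.mem_coe.1 ht')).1
      have e3 := (hall t (Finset.mem_coe.1 ht)).1
      simp only [Prod.mk.injEq] at h
      obtain ⟨g1, g2, g3⟩ := h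
      rw [← e2, ← g1, ← g2, ← g3] at e1
      have e4 : conj (t.1.2 - t.2.2) ≠ 0 := fun h0 => e3 ((map_eq_zero (starRingEnd ℂ)).1 h0)
      have e5 := mul_right_cancel₀ e4 e1
      exact Prod.ext (Prod.ext g1 g2) (Prod.ext (by linear_combination -e5) g3)
  · rw [hoc]
    unfold oc
    rw [← Finset.card_product, ← Finset.card_product, ← Finset.card_disjSum]
    apply Finset.card_le_card_of_injOn (fun s => match s with
      | Sum.inl u => ((u.1.1, u.2), (u.1.2, u.2))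
      | Sum.inr u => ((u.1, u.2.1), (u.1, u.2.2)))
    · intro s hs
      have hs' := Finset.mem_coe.1 hs
      rw [Finset.mem_disjSum] at hs'
      rcases hs' with ⟨u, hu, rfl⟩ | ⟨u, hu, rfl⟩
      · obtain ⟨hu1, hu2⟩ := Finset.mem_product.1 hu
        obtain ⟨hu3, hu4⟩ := Finset.mem_filter.1 hu1
        obtain ⟨hu5, hu6⟩ := Finset.mem_product.1 hu3
        refine Finset.mem_coe.2 (Finset.mem_filter.2 ⟨Finset.mem_product.2
          ⟨Finset.mem_product.2 ⟨hu5, hu2⟩, Finset.mem_product.2 ⟨hu6, hu2⟩⟩, ?_⟩)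
        simp only [sub_self, mul_zero, add_zero]
        rw [← dist_eq_norm]
        exact hu4
      · obtain ⟨hu1, hu2⟩ := Finset.mem_product.1 hu
        obtain ⟨hu3, hu4⟩ := Finset.mem_filter.1 hu2
        obtain ⟨hu5, hu6⟩ := Finset.mem_product.1 hu3
        refine Finset.mem_coe.2 (Finset.mem_filter.2 ⟨Finset.mem_product.2
          ⟨Finset.mem_product.2 ⟨hu1, hu5⟩, Finset.mem_product.2 ⟨hu1, hu6⟩⟩, ?_⟩)
        simp only [sub_self, zero_add]
        rw [norm_mul, he, one_mul, ← dist_eq_norm]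
        exact hu4
    · intro s hs s' hs' h
      have hs1 := Finset.mem_coe.1 hs
      have hs2 := Finset.mem_coe.1 hs'
      rw [Finset.mem_disjSum] at hs1 hs2
      rcases hs1 with ⟨u, hu, rfl⟩ | ⟨u, hu, rfl⟩ <;> rcases hs2 with ⟨v, hv, rfl⟩ | ⟨v, hv, rfl⟩
      · simp only [Prod.mk.injEq] at h
        obtain ⟨⟨g1, g2⟩, g3, g4⟩ := h
        exact congrArg Sum.inl (Prod.ext (Prod.ext g1 g3) g2)
      · exfalso
        simp only [Prod.mk.injEq] at h
        obtain ⟨⟨g1, g2⟩, g3, g4⟩ := h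
        have hu4 := (Finset.mem_filter.1 (Finset.mem_product.1 hu).1).2
        rw [g1, g3, dist_self] at hu4
        exact zero_ne_one hu4
      · exfalso
        simp only [Prod.mk.injEq] at h
        obtain ⟨⟨g1, g2⟩, g3, g4⟩ := h
        have hu4 := (Finset.mem_filter.1 (Finset.mem_product.1 hv).1).2
        rw [← g1, ← g3, dist_self] at hu4
        exact zero_ne_one hu4
      · simp only [Prod.mk.injEq] at h
        obtain ⟨⟨g1, g2⟩, g3, g4⟩ := h
        exact congrArg Sum.inr (Prod.ext g1 (Prod.ext g2 g4))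

end Pool.Agent.H131DG
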