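import Pool.Agent.H131DG.Geo

/-! Integers with many representations as a sum of two squares; the scaled grids. -/

open Finset

namespace Pool.Agent.H131DG

/-- the norm of a Gaussian integer -/
def nn (z : ℤ × ℤ) : ℤ := z.1 ^ 2 + z.2 ^ 2

theorem nn_nonneg (z : ℤ × ℤ) : 0 ≤ nn z := by unfold nn; positivity

theorem nn_pos (z : ℤ × ℤ) (h : z ≠ 0) : 0 < nn z := by
  unfold nn
  by_contra hcon
  have h1 : z.1 = 0 := by nlinarith [sq_nonneg z.1, sq_nonneg z.2]
  have h2 : z.2 = 0 := by nlinarith [sq_nonneg z.1, sq_nonneg z.2]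
  exact h (Prod.ext h1 h2)

theorem reps (T : Finset ℕ) (hT : ∀ q ∈ T, q.Prime ∧ q % 4 = 1) :
    ∃ V : Finset (ℤ × ℤ), 2 ^ T.card ≤ V.card ∧ ∀ v ∈ V, nn v = ((∏ q ∈ T, q : ℕ) : ℤ) := by
  classical
  induction T using Finset.induction_on with
  | empty => exact ⟨{(1, 0)}, by simp, by simp [nn]⟩
  | insert q T hq ih =>
    obtain ⟨V, hV1, hV2⟩ := ih (fun q' hq' => hT q' (Finset.mem_insert_of_mem hq'))
    obtain ⟨hqp, hq4⟩ := hT q (Finset.mem_insert_self _ _)
    have : Fact q.Prime := ⟨hqp⟩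
    obtain ⟨a0, b0, hab0⟩ := Nat.Prime.sq_add_sq (p := q) (by omega)
    set a : ℤ := ((a0 : ℕ) : ℤ) with ha
    set b : ℤ := ((b0 : ℕ) : ℤ) with hb
    have hab : a ^ 2 + b ^ 2 = (q : ℤ) := by
      rw [ha, hb, ← hab0]; push_cast; ring
    have hq0 : (0 : ℤ) < q := by exact_mod_cast hqp.pos
    set m : ℕ := ∏ q ∈ T, q with hm
    have hqm : ¬ (q : ℤ) ∣ (m : ℤ) := by
      intro h
      have h1 : q ∣ m := by exact_mod_cast h
      rw [hm, hqp.prime.dvd_finsetProd_iff] at h1
      obtain ⟨r, hr, hqr⟩ := h1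
      have := (Nat.prime_dvd_prime_iff_eq hqp (hT r (Finset.mem_insert_of_mem hr)).1).1 hqr
      rw [this] at hq
      exact hq hr
    -- q does not divide a, b
    have hqprime : Prime (q : ℤ) := Nat.prime_iff_prime_int.1 hqp
    have hsq : ∀ c : ℤ, (q : ℤ) ∣ c → ∀ d : ℤ, c ^ 2 + d ^ 2 = q → False := by
      intro c hc d hcd
      have h1 : (q : ℤ) ∣ d ^ 2 := by
        have : d ^ 2 = q - c ^ 2 := by linarith
        rw [this]
        exact dvd_sub (dvd_refl _) (dvd_pow hc two_ne_zero)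
      have h2 : (q : ℤ) ∣ d := hqprime.dvd_of_dvd_pow h1
      obtain ⟨u, rfl⟩ := hc
      obtain ⟨v, rfl⟩ := h2
      have h3 : (q : ℤ) * (q * (u ^ 2 + v ^ 2)) = q * 1 := by linarith [hcd]
      have h4 : (q : ℤ) * (u ^ 2 + v ^ 2) = 1 := mul_left_cancel₀ hq0.ne' h3
      have h5 : (q : ℤ) ∣ 1 := ⟨_, h4.symm⟩
      exact hqprime.not_isUnit (isUnit_of_dvd_one h5)
    have hqa : ¬ (q : ℤ) ∣ a := fun h => hsq a h b hab
    have hqb : ¬ (q : ℤ) ∣ b := fun h => hsq b h a (by linarith)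
    let f : ℤ × ℤ → ℤ × ℤ := fun z => (a * z.1 - b * z.2, a * z.2 + b * z.1)
    let g : ℤ × ℤ → ℤ × ℤ := fun z => (a * z.1 + b * z.2, a * z.2 - b * z.1)
    have hf : Function.Injective f := by
      intro z z' h
      have h1 : a * z.1 - b * z.2 = a * z'.1 - b * z'.2 := congrArg Prod.fst h
      have h2 : a * z.2 + b * z.1 = a * z'.2 + b * z'.1 := congrArg Prod.snd h
      have h3 : (q : ℤ) * z.1 = q * z'.1 := by rw [← hab]; linear_combination a * h1 + b * h2
      have h4 : (q : ℤ) * z.2 = q * z'.2 := by rw [← hab]; linear_combination a * h2 - b * h1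
      exact Prod.ext (mul_left_cancel₀ hq0.ne' h3) (mul_left_cancel₀ hq0.ne' h4)
    have hg : Function.Injective g := by
      intro z z' h
      have h1 : a * z.1 + b * z.2 = a * z'.1 + b * z'.2 := congrArg Prod.fst h
      have h2 : a * z.2 - b * z.1 = a * z'.2 - b * z'.1 := congrArg Prod.snd h
      have h3 : (q : ℤ) * z.1 = q * z'.1 := by rw [← hab]; linear_combination a * h1 - b * h2
      have h4 : (q : ℤ) * z.2 = q * z'.2 := by rw [← hab]; linear_combination a * h2 + b * h1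
      exact Prod.ext (mul_left_cancel₀ hq0.ne' h3) (mul_left_cancel₀ hq0.ne' h4)
    have hdisj : Disjoint (V.image f) (V.image g) := by
      rw [Finset.disjoint_left]
      intro w hw hw'
      obtain ⟨z, hz, hzw⟩ := Finset.mem_image.1 hw
      obtain ⟨z', hz', hzw'⟩ := Finset.mem_image.1 hw'
      have h0 : f z = g z' := hzw.trans hzw'.symm
      have h1 : a * z.1 - b * z.2 = a * z'.1 + b * z'.2 := congrArg Prod.fst h0
      have h2 : a * z.2 + b * z.1 = a * z'.2 - b * z'.1 := congrArg Prod.snd h0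
      have hz1 : z.1 ^ 2 + z.2 ^ 2 = (m : ℤ) := hV2 z hz
      have h3 : (q : ℤ) ∣ 2 * (a * (b * m)) := by
        refine ⟨z'.2 * z.1 - z'.1 * z.2, ?_⟩
        rw [← hz1, ← hab]
        linear_combination (b * z.1 - a * z.2) * h1 + (a * z.1 + b * z.2) * h2
      rcases hqprime.dvd_or_dvd h3 with h4 | h4
      · have h5 : q ∣ 2 := by exact_mod_cast h4
        have h6 := Nat.le_of_dvd (by norm_num) h5
        have h7 := hqp.two_le
        have h8 : q = 2 := by omega
        rw [h8] at hq4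
        omega
      · rcases hqprime.dvd_or_dvd h4 with h5 | h5
        · exact hqa h5
        · rcases hqprime.dvd_or_dvd h5 with h6 | h6
          · exact hqb h6
          · exact hqm h6
    refine ⟨V.image f ∪ V.image g, ?_, ?_⟩
    · rw [Finset.card_union_of_disjoint hdisj, Finset.card_image_of_injective _ hf,
        Finset.card_image_of_injective _ hg, Finset.card_insert_of_notMem hq, pow_succ]
      omega
    · intro v hv
      rw [Finset.prod_insert hq]
      push_cast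
      rcases Finset.mem_union.1 hv with h | h
      · obtain ⟨z, hz, rfl⟩ := Finset.mem_image.1 h
        have hz1 : z.1 ^ 2 + z.2 ^ 2 = ((∏ q ∈ T, q : ℕ) : ℤ) := hV2 z hz
        show (a * z.1 - b * z.2) ^ 2 + (a * z.2 + b * z.1) ^ 2 = q * ∏ x ∈ T, (x : ℤ)
        push_cast at hz1
        rw [← hz1, ← hab]
        ring
      · obtain ⟨z, hz, rfl⟩ := Finset.mem_image.1 h
        have hz1 : z.1 ^ 2 + z.2 ^ 2 = ((∏ q ∈ T, q : ℕ) : ℤ) := hV2 z hz
        show (a * z.1 + b * z.2) ^ 2 + (a * z.2 - b * z.1) ^ 2 = q * ∏ x ∈ T, (x : ℤ)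
        push_cast at hz1
        rw [← hz1, ← hab]
        ring

end Pool.Agent.H131DG
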