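import Pool.Agent.H131DG.Geo

/-! Generic unions of planar point sets, and tuning of the number of points. -/

open Finset

namespace Pool.Agent.H131DG

theorem pt_normSq (z : ℂ) (t : ℝ) :
    ‖z - ⟨t, t ^ 2⟩‖ ^ 2 = ‖z‖ ^ 2 - 2 * z.re * t - 2 * z.im * t ^ 2 + t ^ 2 + t ^ 4 := by
  rw [← Complex.normSq_eq_norm_sq, ← Complex.normSq_eq_norm_sq, Complex.normSq_apply,
    Complex.normSq_apply]
  simp only [Complex.sub_re, Complex.sub_im]
  ring

theorem exists_shift (Δ : Finset ℂ) (K : ℝ) : ∃ p : ℂ,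
    (∀ δ ∈ Δ, ∀ δ' ∈ Δ, δ ≠ δ' → ‖δ - p‖ ≠ ‖δ' - p‖) ∧ ∀ δ ∈ Δ, K < ‖δ - p‖ := by
  classical
  have h1 : (⋃ q ∈ (Δ ×ˢ Δ).filter (fun q => q.1 ≠ q.2),
      {t : ℝ | (-2 * (q.1.im - q.2.im)) * t ^ 2 + (-2 * (q.1.re - q.2.re)) * t +
        (‖q.1‖ ^ 2 - ‖q.2‖ ^ 2) = 0}).Finite := by
    refine Set.Finite.biUnion (Finset.finite_toSet _) ?_
    intro q hq
    have hne := (Finset.mem_filter.1 (Finset.mem_coe.1 hq)).2
    refine quad_fin _ _ _ ?_
    by_contra hcon
    push Not at hcon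
    apply hne
    apply Complex.ext
    · linarith [hcon.1]
    · linarith [hcon.2]
  obtain ⟨t, ht, hne⟩ := (Set.Ici_infinite (|K| + (∑ δ ∈ Δ, ‖δ‖) + 1)).exists_notMem_finite h1
  have ht' : |K| + (∑ δ ∈ Δ, ‖δ‖) + 1 ≤ t := ht
  refine ⟨⟨t, t ^ 2⟩, ?_, ?_⟩
  · intro δ hδ δ' hδ' hd heq
    apply hne
    simp only [Set.mem_iUnion]
    refine ⟨(δ, δ'), Finset.mem_filter.2 ⟨Finset.mem_product.2 ⟨hδ, hδ'⟩, hd⟩, ?_⟩
    show (-2 * (δ.im - δ'.im)) * t ^ 2 + (-2 * (δ.re - δ'.re)) * t + (‖δ‖ ^ 2 - ‖δ'‖ ^ 2) = 0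
    have h2 := pt_normSq δ t
    have h3 := pt_normSq δ' t
    rw [heq] at h2
    linarith
  · intro δ hδ
    have h2 : ‖δ‖ ≤ ∑ δ ∈ Δ, ‖δ‖ := Finset.single_le_sum (f := fun δ => ‖δ‖)
      (fun _ _ => norm_nonneg _) hδ
    have h3 : |t| ≤ ‖(⟨t, t ^ 2⟩ : ℂ)‖ := Complex.abs_re_le_norm ⟨t, t ^ 2⟩
    have h4 : ‖(⟨t, t ^ 2⟩ : ℂ)‖ - ‖δ‖ ≤ ‖δ - ⟨t, t ^ 2⟩‖ := by
      rw [norm_sub_rev]
      exact norm_sub_norm_le _ _
    have h5 := le_abs_self t
    have h6 := le_abs_self K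
    linarith

theorem union_lemma (X Y : Finset ℂ) : ∃ Z : Finset ℂ, Z.card = X.card + Y.card ∧
    (∀ d > 0, oc Z d ≤ max (oc X d + oc Y d) (2 * Y.card)) ∧
    (∀ d > 0, oc X d + oc Y d ≤ oc Z d) := by
  classical
  set K : ℝ := (∑ q ∈ X ×ˢ X, dist q.1 q.2) + ∑ q ∈ Y ×ˢ Y, dist q.1 q.2 with hK
  have hKX : ∀ x ∈ X, ∀ x' ∈ X, dist x x' ≤ K := by
    intro x hx x' hx'
    have h1 : dist x x' ≤ ∑ q ∈ X ×ˢ X, dist q.1 q.2 :=
      Finset.single_le_sum (f := fun q : ℂ × ℂ => dist q.1 q.2) (fun _ _ => dist_nonneg)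
        (Finset.mem_product.2 ⟨hx, hx'⟩ : (x, x') ∈ X ×ˢ X)
    have h2 : 0 ≤ ∑ q ∈ Y ×ˢ Y, dist q.1 q.2 := Finset.sum_nonneg fun _ _ => dist_nonneg
    linarith
  have hKY : ∀ x ∈ Y, ∀ x' ∈ Y, dist x x' ≤ K := by
    intro x hx x' hx'
    have h1 : dist x x' ≤ ∑ q ∈ Y ×ˢ Y, dist q.1 q.2 :=
      Finset.single_le_sum (f := fun q : ℂ × ℂ => dist q.1 q.2) (fun _ _ => dist_nonneg)
        (Finset.mem_product.2 ⟨hx, hx'⟩ : (x, x') ∈ Y ×ˢ Y)
    have h2 : 0 ≤ ∑ q ∈ X ×ˢ X, dist q.1 q.2 := Finset.sum_nonneg fun _ _ => dist_nonneg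
    linarith
  have hK0 : 0 ≤ K := add_nonneg (Finset.sum_nonneg fun _ _ => dist_nonneg)
    (Finset.sum_nonneg fun _ _ => dist_nonneg)
  obtain ⟨p, hp1, hp2⟩ := exists_shift ((X ×ˢ Y).image fun q => q.1 - q.2) K
  have hc : ∀ x ∈ X, ∀ y ∈ Y, dist x (y + p) = ‖(x - y) - p‖ := by
    intro x _ y _
    rw [dist_eq_norm]
    congr 1
    ring
  have hmemD : ∀ x ∈ X, ∀ y ∈ Y, x - y ∈ (X ×ˢ Y).image fun q => q.1 - q.2 := by
    intro x hx y hy
    exact Finset.mem_image.2 ⟨(x, y), Finset.mem_product.2 ⟨hx, hy⟩, rfl⟩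
  have hcK : ∀ x ∈ X, ∀ y ∈ Y, K < dist x (y + p) := by
    intro x hx y hy
    rw [hc x hx y hy]
    exact hp2 _ (hmemD x hx y hy)
  have hcI : ∀ x ∈ X, ∀ y ∈ Y, ∀ x' ∈ X, ∀ y' ∈ Y, dist x (y + p) = dist x' (y' + p) →
      x - y = x' - y' := by
    intro x hx y hy x' hx' y' hy' h
    by_contra hne
    rw [hc x hx y hy, hc x' hx' y' hy'] at h
    exact hp1 _ (hmemD x hx y hy) _ (hmemD x' hx' y' hy') hne h
  set Y' : Finset ℂ := Y.image (fun y => y + p) with hY'
  have hYc : Y'.card = Y.card := Finset.card_image_of_injective _ (add_left_injective p)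
  have hYo : ∀ d, oc Y' d = oc Y d := by
    intro d
    unfold oc
    symm
    apply Finset.card_bij (fun q _ => (q.1 + p, q.2 + p))
    · intro q hq
      obtain ⟨h1, h2⟩ := Finset.mem_filter.1 hq
      obtain ⟨h3, h4⟩ := Finset.mem_product.1 h1
      refine Finset.mem_filter.2 ⟨Finset.mem_product.2 ⟨Finset.mem_image_of_mem _ h3,
        Finset.mem_image_of_mem _ h4⟩, ?_⟩
      rw [dist_add_right]
      exact h2
    · intro q _ q' _ h
      simp only [Prod.mk.injEq, add_left_inj] at h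
      exact Prod.ext h.1 h.2
    · rintro ⟨u, v⟩ huv
      obtain ⟨h1, h2⟩ := Finset.mem_filter.1 huv
      obtain ⟨h3, h4⟩ := Finset.mem_product.1 h1
      obtain ⟨y, hy, rfl⟩ := Finset.mem_image.1 h3
      obtain ⟨y', hy', rfl⟩ := Finset.mem_image.1 h4
      refine ⟨(y, y'), Finset.mem_filter.2 ⟨Finset.mem_product.2 ⟨hy, hy'⟩, ?_⟩, rfl⟩
      rw [← dist_add_right y y' p]
      exact h2
  have hdisj : Disjoint X Y' := by
    rw [Finset.disjoint_left]
    intro x hx hx'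
    obtain ⟨y, hy, rfl⟩ := Finset.mem_image.1 hx'
    have := hcK _ hx y hy
    rw [dist_self] at this
    linarith
  refine ⟨X ∪ Y', ?_, ?_, ?_⟩
  · rw [Finset.card_union_of_disjoint hdisj, hYc]
  · intro d hd
    have hsub : ((X ∪ Y') ×ˢ (X ∪ Y')).filter (fun q => dist q.1 q.2 = d) ⊆
        ((X ×ˢ X).filter (fun q => dist q.1 q.2 = d) ∪ (Y' ×ˢ Y').filter (fun q => dist q.1 q.2 = d))
        ∪ ((X ×ˢ Y').filter (fun q => dist q.1 q.2 = d) ∪
          (Y' ×ˢ X).filter (fun q => dist q.1 q.2 = d)) := by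
      intro q hq
      simp only [Finset.mem_filter, Finset.mem_union, Finset.mem_product] at hq ⊢
      tauto
    rcases le_or_gt d K with hdK | hdK
    · have h1 : (X ×ˢ Y').filter (fun q => dist q.1 q.2 = d) = ∅ := by
        rw [Finset.filter_eq_empty_iff]
        intro q hq hqd
        obtain ⟨h2, h3⟩ := Finset.mem_product.1 hq
        obtain ⟨y, hy, hyq⟩ := Finset.mem_image.1 h3
        have := hcK _ h2 y hy
        rw [hyq, hqd] at this
        linarith
      have h2 : (Y' ×ˢ X).filter (fun q => dist q.1 q.2 = d) = ∅ := by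
        rw [Finset.filter_eq_empty_iff]
        intro q hq hqd
        obtain ⟨h3, h2⟩ := Finset.mem_product.1 hq
        obtain ⟨y, hy, hyq⟩ := Finset.mem_image.1 h3
        have := hcK _ h2 y hy
        rw [hyq, dist_comm, hqd] at this
        linarith
      rw [h1, h2, Finset.empty_union, Finset.union_empty] at hsub
      refine le_trans ?_ (le_max_left _ _)
      rw [← hYo]
      exact (Finset.card_le_card hsub).trans (Finset.card_union_le _ _)
    · have h1 : (X ×ˢ X).filter (fun q => dist q.1 q.2 = d) = ∅ := by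
        rw [Finset.filter_eq_empty_iff]
        intro q hq hqd
        obtain ⟨h2, h3⟩ := Finset.mem_product.1 hq
        have := hKX _ h2 _ h3
        linarith
      have h2 : (Y' ×ˢ Y').filter (fun q => dist q.1 q.2 = d) = ∅ := by
        rw [Finset.filter_eq_empty_iff]
        intro q hq hqd
        obtain ⟨h2, h3⟩ := Finset.mem_product.1 hq
        obtain ⟨y, hy, hyq⟩ := Finset.mem_image.1 h2
        obtain ⟨y', hy', hyq'⟩ := Finset.mem_image.1 h3
        have := hKY _ hy _ hy'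
        rw [← dist_add_right y y' p, hyq, hyq'] at this
        linarith
      rw [h1, h2, Finset.empty_union, Finset.empty_union] at hsub
      have h3 : ((X ×ˢ Y').filter (fun q => dist q.1 q.2 = d)).card ≤ Y'.card := by
        apply Finset.card_le_card_of_injOn (fun q => q.2)
        · intro q hq
          exact Finset.mem_coe.2
            (Finset.mem_product.1 (Finset.mem_filter.1 (Finset.mem_coe.1 hq)).1).2
        · intro q hq q' hq' h
          obtain ⟨g1, g2⟩ := Finset.mem_filter.1 (Finset.mem_coe.1 hq)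
          obtain ⟨g3, g4⟩ := Finset.mem_filter.1 (Finset.mem_coe.1 hq')
          obtain ⟨g5, g6⟩ := Finset.mem_product.1 g1
          obtain ⟨g7, g8⟩ := Finset.mem_product.1 g3
          obtain ⟨y, hy, hyq⟩ := Finset.mem_image.1 g6
          obtain ⟨y', hy', hyq'⟩ := Finset.mem_image.1 g8
          have h : q.2 = q'.2 := h
          have hyy : y = y' := by
            have : y + p = y' + p := by rw [hyq, hyq', h]
            exact add_right_cancel this
          have := hcI _ g5 y hy _ g7 y' hy' (by rw [hyq, hyq', g2, g4])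
          rw [hyy] at this
          exact Prod.ext (sub_left_injective this) h
      have h4 : ((Y' ×ˢ X).filter (fun q => dist q.1 q.2 = d)).card ≤
          ((X ×ˢ Y').filter (fun q => dist q.1 q.2 = d)).card := by
        apply Finset.card_le_card_of_injOn Prod.swap
        · intro q hq
          obtain ⟨g1, g2⟩ := Finset.mem_filter.1 (Finset.mem_coe.1 hq)
          obtain ⟨g5, g6⟩ := Finset.mem_product.1 g1
          exact Finset.mem_coe.2 (Finset.mem_filter.2 ⟨Finset.mem_product.2 ⟨g6, g5⟩, by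
            rw [Prod.fst_swap, Prod.snd_swap, dist_comm]; exact g2⟩)
        · exact Prod.swap_injective.injOn
      refine le_trans ?_ (le_max_right _ _)
      have h5 := (Finset.card_le_card hsub).trans (Finset.card_union_le _ _)
      unfold oc
      omega
  · intro d hd
    rw [← hYo]
    unfold oc
    rw [← Finset.card_union_of_disjoint]
    · apply Finset.card_le_card
      intro q hq
      simp only [Finset.mem_filter, Finset.mem_union, Finset.mem_product] at hq ⊢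
      tauto
    · rw [Finset.disjoint_left]
      intro q hq hq'
      exact (Finset.disjoint_left.1 hdisj) (Finset.mem_product.1 (Finset.mem_filter.1 hq).1).1
        (Finset.mem_product.1 (Finset.mem_filter.1 hq').1).1

theorem copies (X0 : Finset ℂ) (M G : ℕ) (hM : 2 * X0.card ≤ M)
    (h1 : ∀ d > 0, d ≠ 1 → oc X0 d ≤ M) (h2 : M + G ≤ oc X0 1) (s : ℕ) (hs : 1 ≤ s) :
    ∃ Z : Finset ℂ, Z.card = s * X0.card ∧ (∀ d > 0, d ≠ 1 → oc Z d ≤ s * M) ∧ s * (M + G) ≤ oc Z 1 := by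
  induction s, hs using Nat.le_induction with
  | base => exact ⟨X0, by rw [one_mul], fun d hd hd1 => by rw [one_mul]; exact h1 d hd hd1,
      by rw [one_mul]; exact h2⟩
  | succ s hs ih =>
    obtain ⟨Z, hZ1, hZ2, hZ3⟩ := ih
    obtain ⟨W, hW1, hW2, hW3⟩ := union_lemma Z X0
    refine ⟨W, by rw [hW1, hZ1]; ring, ?_, ?_⟩
    · intro d hd hd1
      have e1 := hW2 d hd
      have e2 := hZ2 d hd hd1
      have e3 := h1 d hd hd1
      have e4 : max (oc Z d + oc X0 d) (2 * X0.card) ≤ s * M + M := by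
        apply max_le
        · omega
        · exact hM.trans (Nat.le_add_left _ _)
      calc oc W d ≤ _ := e1
        _ ≤ s * M + M := e4
        _ = (s + 1) * M := by ring
    · have e1 := hW3 1 one_pos
      calc (s + 1) * (M + G) = s * (M + G) + (M + G) := by ring
        _ ≤ oc Z 1 + oc X0 1 := Nat.add_le_add hZ3 h2
        _ ≤ _ := e1

theorem oc_single (d : ℝ) (hd : 0 < d) : oc ({0} : Finset ℂ) d = 0 := by
  unfold oc
  rw [Finset.card_eq_zero, Finset.filter_eq_empty_iff]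
  intro q hq hqd
  obtain ⟨h1, h2⟩ := Finset.mem_product.1 hq
  rw [Finset.mem_singleton] at h1 h2
  rw [h1, h2, dist_self] at hqd
  linarith

theorem pad (X0 : Finset ℂ) (M L : ℕ) (hM : 2 ≤ M)
    (h1 : ∀ d > 0, d ≠ 1 → oc X0 d ≤ M) (h2 : L ≤ oc X0 1) (r : ℕ) :
    ∃ Z : Finset ℂ, Z.card = X0.card + r ∧ (∀ d > 0, d ≠ 1 → oc Z d ≤ M) ∧ L ≤ oc Z 1 := by
  induction r with
  | zero => exact ⟨X0, rfl, h1, h2⟩
  | succ r ih =>
    obtain ⟨Z, hZ1, hZ2, hZ3⟩ := ih
    obtain ⟨W, hW1, hW2, hW3⟩ := union_lemma Z {0}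
    refine ⟨W, by rw [hW1, hZ1, Finset.card_singleton]; ring, ?_, ?_⟩
    · intro d hd hd1
      have e1 := hW2 d hd
      have e2 := hZ2 d hd hd1
      rw [oc_single d hd, Finset.card_singleton] at e1
      refine e1.trans (max_le ?_ ?_)
      · omega
      · omega
    · have e1 := hW3 1 one_pos
      rw [oc_single 1 one_pos] at e1
      omega

/-- exact number of points -/
theorem exact_size (X0 : Finset ℂ) (M G n : ℕ) (h0 : 0 < X0.card) (hn : X0.card ≤ n) (hM : 2 * X0.card ≤ M)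
    (h1 : ∀ d > 0, d ≠ 1 → oc X0 d ≤ M) (h2 : M + G ≤ oc X0 1) :
    ∃ Z : Finset ℂ, ∃ M' : ℕ, Z.card = n ∧ (∀ d > 0, d ≠ 1 → oc Z d ≤ M') ∧
      M' + (n / X0.card) * G ≤ oc Z 1 := by
  have hs : 1 ≤ n / X0.card := (Nat.one_le_div_iff h0).2 hn
  obtain ⟨Z, hZ1, hZ2, hZ3⟩ := copies X0 M G hM h1 h2 (n / X0.card) hs
  obtain ⟨W, hW1, hW2, hW3⟩ := pad Z ((n / X0.card) * M) ((n / X0.card) * (M + G))
    (by nlinarith) hZ2 hZ3 (n % X0.card)
  refine ⟨W, (n / X0.card) * M, ?_, hW2, ?_⟩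
  · rw [hW1, hZ1, mul_comm]
    exact Nat.div_add_mod n X0.card
  · rw [← mul_add]
    exact hW3

end Pool.Agent.H131DG
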